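import Pool.Agent.H635.LM.Sig
import Pool.Graph.R_seed8.W868.Gch

/-!
# Sets that are defined over the sets of hereditary size at most `κ`
-/

set_option autoImplicit false
set_option linter.unusedSectionVars false

namespace Pool.Agent.H635.LM

open Set Cardinal
open ZFSet (pair)
open Pool.Agent.W868 (Fml Sat D0 D0v)

section

variable {K : Type} [LinearOrder K] [WellFoundedLT K]

/-- The ordinal that corresponds to an element of `K`. -/
noncomputable def oz (a : K) : ZFSet.{0} := (Ordinal.typein (α := K) (· < ·) a).toZFSet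

/-- The graph of a function. -/
noncomputable def gph (x : K → K) : ZFSet.{0} := ZFSet.range fun a : K => pair (oz a) (oz (x a))

theorem oz_mem {a b : K} : oz a ∈ oz b ↔ a < b := by
  unfold oz
  rw [Ordinal.toZFSet_mem_toZFSet_iff]
  exact Ordinal.typein_lt_typein _

theorem oz_inj : Function.Injective (oz : K → ZFSet.{0}) := by
  intro a b h
  exact Ordinal.typein_injective _ (Ordinal.toZFSet_injective h)

theorem mem_oz {a : K} {z : ZFSet.{0}} : z ∈ oz a ↔ ∃ b < a, oz b = z := by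
  unfold oz
  rw [Ordinal.mem_toZFSet_iff]
  constructor
  · rintro ⟨o, ho, rfl⟩
    obtain ⟨b, rfl⟩ := Ordinal.mem_range_typein_iff (· < ·) |>.2
      (ho.trans (Ordinal.typein_lt_type _ a))
    exact ⟨b, (Ordinal.typein_lt_typein _).1 ho, rfl⟩
  · rintro ⟨b, hb, rfl⟩
    exact ⟨_, (Ordinal.typein_lt_typein _).2 hb, rfl⟩

theorem mem_gph {x : K → K} {z : ZFSet.{0}} : z ∈ gph x ↔ ∃ a, pair (oz a) (oz (x a)) = z := by
  rw [gph, ZFSet.mem_range]

variable (K) in
/-- `u` has at most `κ` elements. -/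
def Sm (u : ZFSet.{0}) : Prop := ∃ h : K → ZFSet.{0}, ∀ v ∈ u, ∃ k, h k = v

variable (K) in
/-- `u` is hereditarily of size at most `κ`. -/
def HK (u : ZFSet.{0}) : Prop :=
  ∃ h : K → ZFSet.{0}, (∀ k, ∀ v ∈ h k, ∃ l, h l = v) ∧ ∃ k, h k = u

theorem HK.sm {u : ZFSet.{0}} (h : HK K u) : Sm K u := by
  obtain ⟨g, h1, k, rfl⟩ := h
  exact ⟨g, h1 k⟩

theorem HK.mem {u v : ZFSet.{0}} (h : HK K u) (hv : v ∈ u) : HK K v := by
  obtain ⟨g, h1, k, rfl⟩ := h
  exact ⟨g, h1, h1 k v hv⟩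

theorem Sm.mono {u v : ZFSet.{0}} (h : Sm K v) (hu : u ⊆ v) : Sm K u := by
  obtain ⟨g, h1⟩ := h
  exact ⟨g, fun w hw => h1 w (hu hw)⟩

theorem Good.ne (hK : Good K) : Nonempty K := by
  rw [← mk_ne_zero_iff]
  exact (aleph0_pos.trans hK.unc).ne'

theorem exists_cover (hK : Good K) {ι : Type} (hι : #ι ≤ #K) (F : ι → ZFSet.{0}) :
    ∃ h : K → ZFSet.{0}, ∀ i, ∃ k, h k = F i := by
  classical
  obtain ⟨e⟩ := Cardinal.le_def _ _ |>.1 hι
  refine ⟨fun k => if h : ∃ i, e i = k then F h.choose else ∅, fun i => ⟨e i, ?_⟩⟩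
  have h : ∃ i', e i' = e i := ⟨i, rfl⟩
  beta_reduce
  rw [dif_pos h]
  exact congrArg F (e.injective h.choose_spec)

theorem HK.join (hK : Good K) {ι : Type} (hι : #ι ≤ #K) (u : ι → ZFSet.{0})
    (hu : ∀ i, HK K (u i)) :
    ∃ h : K → ZFSet.{0}, (∀ k, ∀ v ∈ h k, ∃ l, h l = v) ∧ ∀ i, ∃ k, h k = u i := by
  have hne := hK.ne
  choose g hg1 hg2 using hu
  by_cases hι' : IsEmpty ι
  · exact ⟨fun _ => ∅, fun k v hv => absurd hv (ZFSet.notMem_empty _), fun i => (hι'.false i).elim⟩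
  have h1 : #(ι × K) ≤ #K := by
    rw [mk_prod, lift_id, lift_id]
    exact (mul_le_mul_left hι _).trans (mul_eq_self hK.unc.le).le
  have h1' : Nonempty (ι × K) := by
    rw [not_isEmpty_iff] at hι'
    exact inferInstance
  obtain ⟨e⟩ := Cardinal.le_def _ _ |>.1 h1
  have hs : Function.Surjective (Function.invFun e) := Function.invFun_surjective e.injective
  refine ⟨fun k => g (Function.invFun e k).1 (Function.invFun e k).2, fun k v hv => ?_,
    fun i => ?_⟩
  · obtain ⟨l, hl⟩ := hg1 _ _ v hv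
    obtain ⟨l', hl'⟩ := hs ((Function.invFun e k).1, l)
    exact ⟨l', by beta_reduce; rw [hl']; exact hl⟩
  · obtain ⟨l, hl⟩ := hg2 i
    obtain ⟨l', hl'⟩ := hs (i, l)
    exact ⟨l', by beta_reduce; rw [hl']; exact hl⟩

theorem Good.card_opt (hK : Good K) : #(Option K) ≤ #K := by
  rw [mk_option]
  exact add_le_of_le hK.unc.le le_rfl (one_lt_aleph0.trans hK.unc).le

theorem HK.of (hK : Good K) {u : ZFSet.{0}} (h1 : Sm K u) (h2 : ∀ v ∈ u, HK K v) : HK K u := by
  classical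
  obtain ⟨g, hg⟩ := h1
  have h3 : HK K (∅ : ZFSet.{0}) :=
    ⟨fun _ => ∅, fun k v hv => absurd hv (ZFSet.notMem_empty _), hK.ne.some, rfl⟩
  obtain ⟨h, h4, h5⟩ := HK.join hK (ι := K) le_rfl (fun k => if g k ∈ u then g k else ∅)
    (fun k => by
      split_ifs with hk
      · exact h2 _ hk
      · exact h3)
  let F : Option K → ZFSet.{0} := fun o => o.elim u h
  obtain ⟨h', h6⟩ := exists_cover hK hK.card_opt F
  -- make the range exactly the range of F
  obtain ⟨e⟩ := Cardinal.le_def _ _ |>.1 hK.card_opt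
  have hs : Function.Surjective (Function.invFun e) := Function.invFun_surjective e.injective
  refine ⟨fun k => F (Function.invFun e k), fun k v hv => ?_, ?_⟩
  · have h7 : ∀ o : Option K, v ∈ F o → ∃ o', F o' = v := by
      rintro (_ | k) hv
      · obtain ⟨l, rfl⟩ := hg v hv
        obtain ⟨l', hl'⟩ := h5 l
        have hv' : g l ∈ u := hv
        rw [if_pos hv'] at hl'
        exact ⟨some l', hl'⟩
      · obtain ⟨l, hl⟩ := h4 k v hv
        exact ⟨some l, hl⟩
    obtain ⟨o, ho⟩ := h7 _ hv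
    obtain ⟨l, hl⟩ := hs o
    exact ⟨l, by beta_reduce; rw [hl]; exact ho⟩
  · obtain ⟨l, hl⟩ := hs none
    exact ⟨l, by beta_reduce; rw [hl]; rfl⟩

theorem Sm.of_card (hK : Good K) {u : ZFSet.{0}} (h : u.card ≤ #K) : Sm K u := by
  obtain ⟨g, hg⟩ := exists_cover hK (ι := Shrink {z // z ∈ u}) h
    fun i => ((equivShrink {z // z ∈ u}).symm i).1
  refine ⟨g, fun v hv => ?_⟩
  obtain ⟨k, hk⟩ := hg (equivShrink _ ⟨v, hv⟩)
  exact ⟨k, by rw [hk, Equiv.symm_apply_apply]⟩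

theorem Sm.range (h : K → ZFSet.{0}) : Sm K (ZFSet.range h) :=
  ⟨h, fun v hv => by rwa [ZFSet.mem_range] at hv⟩

theorem Sm.upair (hK : Good K) (a b : ZFSet.{0}) : Sm K {a, b} := by
  obtain ⟨g, hg⟩ := exists_cover hK (ι := Bool) (by
    have : #Bool < ℵ₀ := lt_aleph0_of_finite _
    exact (this.trans hK.unc).le) fun i => cond i a b
  refine ⟨g, fun v hv => ?_⟩
  rcases ZFSet.mem_pair.1 hv with rfl | rfl
  · exact hg true
  · exact hg false

theorem HK.upair (hK : Good K) {a b : ZFSet.{0}} (ha : HK K a) (hb : HK K b) : HK K {a, b} :=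
  HK.of hK (Sm.upair hK a b) fun v hv => by
    rcases ZFSet.mem_pair.1 hv with rfl | rfl
    · exact ha
    · exact hb

theorem HK.single (hK : Good K) {a : ZFSet.{0}} (ha : HK K a) : HK K {a} := by
  have h : ({a, a} : ZFSet.{0}) = {a} := by
    ext z
    simp
  rw [← h]
  exact ha.upair hK ha

theorem HK.pair (hK : Good K) {a b : ZFSet.{0}} (ha : HK K a) (hb : HK K b) :
    HK K (pair a b) := by
  unfold ZFSet.pair
  exact (ha.single hK).upair hK (ha.upair hK hb)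

theorem HK.of_sub (hK : Good K) {u v : ZFSet.{0}} (hv : HK K v) (h : u ⊆ v) : HK K u :=
  HK.of hK (hv.sm.mono h) fun w hw => hv.mem (h hw)

theorem hk_oz (a : K) : HK K (oz a) :=
  ⟨oz, fun k v hv => by
    obtain ⟨b, -, h⟩ := mem_oz.1 hv
    exact ⟨b, h⟩, a, rfl⟩

theorem hk_gph (hK : Good K) (x : K → K) : HK K (gph x) :=
  HK.of hK (Sm.range _) fun v hv => by
    obtain ⟨a, rfl⟩ := mem_gph.1 hv
    exact (hk_oz a).pair hK (hk_oz _)

/-! ### Structures on `K` -/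

/-- Truth in a structure on `K`. -/
def SatE (E : K → K → Prop) : {n : ℕ} → Fml Empty n → (Fin n → K) → Prop
  | _, .mem s t, a => E (Sum.elim a Empty.elim s) (Sum.elim a Empty.elim t)
  | _, .eq s t, a => Sum.elim a Empty.elim s = Sum.elim a Empty.elim t
  | _, .neg φ, a => ¬ SatE E φ a
  | _, .and φ ψ, a => SatE E φ a ∧ SatE E ψ a
  | _, .ex φ, a => ∃ b, SatE E φ (Fin.cons b a)

omit [LinearOrder K] [WellFoundedLT K] in
theorem sat_iff {E : K → K → Prop} {e : K → ZFSet.{0}} (hinj : Function.Injective e)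
    (hE : ∀ i j, e i ∈ e j ↔ E i j) : {n : ℕ} → (φ : Fml Empty n) → (a : Fin n → K) →
    (Sat (range e) Empty.elim φ (fun i => e (a i)) ↔ SatE E φ a)
  | _, .mem (Sum.inl i) (Sum.inl j), a => hE _ _
  | _, .mem (Sum.inr s) _, a => s.elim
  | _, .mem (Sum.inl _) (Sum.inr t), a => t.elim
  | _, .eq (Sum.inl i) (Sum.inl j), a => hinj.eq_iff
  | _, .eq (Sum.inr s) _, a => s.elim
  | _, .eq (Sum.inl _) (Sum.inr t), a => t.elim
  | _, .neg φ, a => not_congr (sat_iff hinj hE φ a)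
  | _, .and φ ψ, a => and_congr (sat_iff hinj hE φ a) (sat_iff hinj hE ψ a)
  | _, .ex φ, a => by
    have h1 : ∀ b, (Fin.cons (e b) fun i => e (a i)) = fun i => e ((Fin.cons b a : Fin _ → K) i) := by
      intro b
      funext i
      refine Fin.cases ?_ (fun i => ?_) i <;> rfl
    simp only [Sat, SatE]
    constructor
    · rintro ⟨_, ⟨b, rfl⟩, h⟩
      rw [h1] at h
      exact ⟨b, (sat_iff hinj hE φ _).1 h⟩
    · rintro ⟨b, h⟩
      refine ⟨_, ⟨b, rfl⟩, ?_⟩
      rw [h1]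
      exact (sat_iff hinj hE φ _).2 h

theorem sat_s11 (hK : Good K) (k0 : K) : {n : ℕ} → (φ : Fml Empty n) →
    S11 (fun u : (K × K) ⊕ Fin n → K =>
      SatE (fun i j => u (Sum.inl (i, j)) = k0) φ (fun i => u (Sum.inr i))) ∧
    S11 (fun u : (K × K) ⊕ Fin n → K =>
      ¬ SatE (fun i j => u (Sum.inl (i, j)) = k0) φ (fun i => u (Sum.inr i)))
  | _, .mem (Sum.inl i) (Sum.inl j) => by
    have h : LocF fun u : (K × K) ⊕ Fin _ → K =>
        u (Sum.inl (u (Sum.inr i), u (Sum.inr j))) = k0 := by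
      refine LocF.map1 (fun a => a = k0) (LocF.look hK
        (f := fun u => Sum.inl (u (Sum.inr i), u (Sum.inr j))) ?_)
      exact LocF.map2 hK (fun a b => Sum.inl (a, b)) (LocF.coord hK _) (LocF.coord hK _)
    exact ⟨h.clp.s11 hK, (h.map1 Not).clp.s11 hK⟩
  | _, .mem (Sum.inr s) _ => s.elim
  | _, .mem (Sum.inl _) (Sum.inr t) => t.elim
  | _, .eq (Sum.inl i) (Sum.inl j) => by
    have h : LocF fun u : (K × K) ⊕ Fin _ → K => u (Sum.inr i) = u (Sum.inr j) :=
      LocF.map2 hK (fun a b => a = b) (LocF.coord hK _) (LocF.coord hK _)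
    exact ⟨h.clp.s11 hK, (h.map1 Not).clp.s11 hK⟩
  | _, .eq (Sum.inr s) _ => s.elim
  | _, .eq (Sum.inl _) (Sum.inr t) => t.elim
  | _, .neg φ => by
    obtain ⟨h1, h2⟩ := sat_s11 hK k0 φ
    exact ⟨h2, h1.congr fun u => not_not.symm⟩
  | _, .and φ ψ => by
    obtain ⟨h1, h2⟩ := sat_s11 hK k0 φ
    obtain ⟨h3, h4⟩ := sat_s11 hK k0 ψ
    exact ⟨h1.and hK h3, (h2.or hK h4).congr fun u => not_and_or.symm⟩
  | n, .ex φ => by
    obtain ⟨h1, h2⟩ := sat_s11 hK k0 φ
    let g : K → ((K × K) ⊕ Fin n → K) → (K × K) ⊕ Fin (n + 1) → K := fun b u =>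
      Sum.elim (fun t => u (Sum.inl t)) (Fin.cons b fun i => u (Sum.inr i))
    have hg : ∀ b j, LocF fun u => g b u j := by
      rintro b (t | i)
      · exact LocF.coord hK _
      · refine Fin.cases ?_ (fun i => ?_) i
        · exact LocF.const hK _
        · exact LocF.coord hK _
    have hgf : ∀ b u, (fun i => g b u (Sum.inr i)) = Fin.cons b fun i => u (Sum.inr i) :=
      fun b u => rfl
    constructor
    · refine (S11.exI hK (ι := K) le_rfl fun b => h1.comp hK (hg b)).congr fun u => ?_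
      exact Iff.rfl
    · refine (S11.all hK (ι := K) le_rfl fun b => h2.comp hK (hg b)).congr fun u => ?_
      exact not_exists.symm

/-! ### The collapse -/

section

variable {E : K → K → Prop} (hE : WellFounded E)

/-- The collapse of a well-founded relation. -/
noncomputable def pi : K → ZFSet.{0} :=
  hE.fix fun i ih => ZFSet.range fun j : {j // E j i} => ih j.1 j.2

omit [LinearOrder K] [WellFoundedLT K] in
theorem mem_pi {i : K} {z : ZFSet.{0}} : z ∈ pi hE i ↔ ∃ j, E j i ∧ pi hE j = z := by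
  rw [pi, hE.fix_eq, ZFSet.mem_range]
  constructor
  · rintro ⟨⟨j, hj⟩, h⟩
    exact ⟨j, hj, h⟩
  · rintro ⟨j, hj, h⟩
    exact ⟨⟨j, hj⟩, h⟩

omit [LinearOrder K] [WellFoundedLT K] in
theorem pi_inj (hext : ∀ i j, i = j ∨ ∃ k, ¬ (E k i ↔ E k j)) :
    Function.Injective (pi hE) := by
  intro i
  induction i using hE.induction with
  | _ i ih =>
  intro j h
  rcases hext i j with h1 | ⟨k, hk⟩
  · exact h1
  exfalso
  apply hk
  constructor
  · intro h2
    have h3 : pi hE k ∈ pi hE j := h ▸ (mem_pi hE).2 ⟨k, h2, rfl⟩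
    obtain ⟨k', h4, h5⟩ := (mem_pi hE).1 h3
    rwa [ih k h2 h5.symm]
  · intro h2
    have h3 : pi hE k ∈ pi hE i := h.symm ▸ (mem_pi hE).2 ⟨k, h2, rfl⟩
    obtain ⟨k', h4, h5⟩ := (mem_pi hE).1 h3
    rwa [← ih k' h4 h5]

end

/-! ### The coding theorem -/

/-- The relation coded by `w`. -/
def Ew (k0 : K) (w : ℕ × K × K → K) (i j : K) : Prop := w (0, i, j) = k0

/-- The code `w` is a code of a structure that contains the sets `g k` and the graph of `x`. -/
def Cond (k0 : K) (g : K → ZFSet.{0}) (jo : K → K) (x : K → K) (w : ℕ × K × K → K) : Prop :=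
  WellFounded (Ew k0 w) ∧
  (∀ t : K × K, t.1 = t.2 ∨ ¬ (Ew k0 w (w (1, t)) t.1 ↔ Ew k0 w (w (1, t)) t.2)) ∧
  (∀ t : K × K, Ew k0 w t.1 (w (3, t.2, k0)) → g (w (2, t)) ∈ g t.2 ∧
    t.1 = w (3, w (2, t), k0)) ∧
  (∀ t : K × K, g t.1 ∈ g t.2 → Ew k0 w (w (3, t.1, k0)) (w (3, t.2, k0))) ∧
  (∀ t : K × K, Ew k0 w t.2 (w (5, t.1, k0)) ↔ t.2 = w (3, jo t.1, k0)) ∧
  (∀ t : K × K, Ew k0 w t.2 (w (6, t.1, k0)) ↔ (t.2 = w (3, jo t.1, k0) ∨
    t.2 = w (3, jo (x t.1), k0))) ∧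
  (∀ t : K × K, Ew k0 w t.2 (w (4, t.1, k0)) ↔ (t.2 = w (5, t.1, k0) ∨
    t.2 = w (6, t.1, k0))) ∧
  (∀ t : K, Ew k0 w t (w (8, k0, k0)) → t = w (4, w (7, t, k0), k0)) ∧
  ∀ t : K, Ew k0 w (w (4, t, k0)) (w (8, k0, k0))

theorem clp_cond (hK : Good K) (k0 : K) (g : K → ZFSet.{0}) (jo : K → K) :
    Clp fun u : K ⊕ (ℕ × K × K) → K => Cond k0 g jo (fun k => u (Sum.inl k))
      fun t => u (Sum.inr t) := by
  have hc : ∀ k : K, LocF fun _ : K ⊕ (ℕ × K × K) → K => k := fun k => LocF.const hK k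
  have hl : ∀ (n : ℕ) {F G : (K ⊕ (ℕ × K × K) → K) → K}, LocF F → LocF G →
      LocF fun u => u (Sum.inr (n, F u, G u)) := by
    intro n F G hF hG
    exact LocF.look hK (LocF.map2 hK (fun a b => Sum.inr (n, a, b)) hF hG)
  have hx : ∀ {F : (K ⊕ (ℕ × K × K) → K) → K}, LocF F → LocF fun u => u (Sum.inl (F u)) := by
    intro F hF
    exact LocF.look hK (hF.map1 Sum.inl)
  have heq : ∀ {F G : (K ⊕ (ℕ × K × K) → K) → K}, LocF F → LocF G →
      LocF fun u => F u = G u := fun hF hG => LocF.map2 hK (fun a b => a = b) hF hG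
  have hE : ∀ {F G : (K ⊕ (ℕ × K × K) → K) → K}, LocF F → LocF G →
      LocF fun u => Ew k0 (fun t => u (Sum.inr t)) (F u) (G u) := fun hF hG =>
    heq (hl 0 hF hG) (hc k0)
  have hor : ∀ {P Q : (K ⊕ (ℕ × K × K) → K) → Prop}, LocF P → LocF Q →
      LocF fun u => P u ∨ Q u := fun hP hQ => LocF.map2 hK Or hP hQ
  have hand : ∀ {P Q : (K ⊕ (ℕ × K × K) → K) → Prop}, LocF P → LocF Q →
      LocF fun u => P u ∧ Q u := fun hP hQ => LocF.map2 hK And hP hQ
  have hiff : ∀ {P Q : (K ⊕ (ℕ × K × K) → K) → Prop}, LocF P → LocF Q →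
      LocF fun u => (P u ↔ Q u) := fun hP hQ => LocF.map2 hK Iff hP hQ
  have himp : ∀ {P Q : (K ⊕ (ℕ × K × K) → K) → Prop}, LocF P → LocF Q →
      LocF fun u => (P u → Q u) := fun hP hQ => LocF.map2 hK (fun a b => a → b) hP hQ
  refine Clp.and ?_ (Clp.and ?_ (Clp.and ?_ (Clp.and ?_ (Clp.and ?_ (Clp.and ?_ (Clp.and ?_
    (Clp.and ?_ ?_)))))))
  · intro w hw
    beta_reduce at hw
    rw [wellFounded_iff_isEmpty_descending_chain, not_isEmpty_iff] at hw
    obtain ⟨f, hf⟩ := hw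
    refine ⟨Set.range fun n : ℕ => Sum.inr (0, f (n + 1), f n), ?_, fun w' h1 h2 => ?_⟩
    · have h3 := mk_range_le (f := fun n : ℕ => (Sum.inr (0, f (n + 1), f n) : K ⊕ (ℕ × K × K)))
      exact h3.trans_lt (by simpa using hK.unc)
    · obtain ⟨n, ⟨m, rfl⟩, hm⟩ := h2.has_min (Set.range f) ⟨_, 0, rfl⟩
      refine hm (f (m + 1)) ⟨m + 1, rfl⟩ ?_
      have h3 := h1 _ ⟨m, rfl⟩
      exact h3.trans (hf m)
  · exact Clp.all fun t => LocF.clp (hor (LocF.const hK _)
      ((hiff (hE (hl 1 (hc _) (hc _)) (hc _)) (hE (hl 1 (hc _) (hc _)) (hc _))).map1 Not))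
  · exact Clp.all fun t => LocF.clp (himp (hE (hc _) (hl 3 (hc _) (hc _)))
      (hand ((hl 2 (hc _) (hc _)).map1 fun a => g a ∈ g t.2)
        (heq (hc _) (hl 3 (hl 2 (hc _) (hc _)) (hc _)))))
  · exact Clp.all fun t => LocF.clp (himp (LocF.const hK _)
      (hE (hl 3 (hc _) (hc _)) (hl 3 (hc _) (hc _))))
  · exact Clp.all fun t => LocF.clp (hiff (hE (hc _) (hl 5 (hc _) (hc _)))
      (heq (hc _) (hl 3 (hc _) (hc _))))
  · exact Clp.all fun t => LocF.clp (hiff (hE (hc _) (hl 6 (hc _) (hc _)))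
      (hor (heq (hc _) (hl 3 (hc _) (hc _)))
        (heq (hc _) (hl 3 ((hx (hc t.1)).map1 jo) (hc _)))))
  · exact Clp.all fun t => LocF.clp (hiff (hE (hc _) (hl 4 (hc _) (hc _)))
      (hor (heq (hc _) (hl 5 (hc _) (hc _))) (heq (hc _) (hl 6 (hc _) (hc _)))))
  · exact Clp.all fun t => LocF.clp (himp (hE (hc _) (hl 8 (hc _) (hc _)))
      (heq (hc _) (hl 4 (hl 7 (hc _) (hc _)) (hc _))))
  · exact Clp.all fun t => LocF.clp (hE (hl 4 (hc _) (hc _)) (hl 8 (hc _) (hc _)))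

theorem cond_spec {k0 : K} {g : K → ZFSet.{0}} {jo : K → K}
    (hg : ∀ k, ∀ v ∈ g k, ∃ l, g l = v) (hjo : ∀ a, g (jo a) = oz a) {x : K → K}
    {w : ℕ × K × K → K} (h : Cond k0 g jo x w) :
    ∃ e : K → ZFSet.{0}, Function.Injective e ∧ (∀ i j, e i ∈ e j ↔ Ew k0 w i j) ∧
      (∀ k, ∀ v ∈ e k, ∃ l, e l = v) ∧ (∀ k, e (w (3, k, k0)) = g k) ∧
      e (w (8, k0, k0)) = gph x := by
  obtain ⟨h1, h2, h3, h4, h5, h6, h7, h8, h9⟩ := h
  have hinj : Function.Injective (pi h1) := pi_inj h1 fun i j => by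
    rcases h2 (i, j) with h | h
    · exact Or.inl h
    · exact Or.inr ⟨_, h⟩
  have hmem : ∀ i j, pi h1 i ∈ pi h1 j ↔ Ew k0 w i j := by
    intro i j
    rw [mem_pi]
    constructor
    · rintro ⟨k, hk, h⟩
      rwa [← hinj h]
    · exact fun h => ⟨i, h, rfl⟩
  have hA : ∀ z : ZFSet.{0}, ∀ k, g k = z → pi h1 (w (3, k, k0)) = z := by
    intro z
    induction z using ZFSet.inductionOn with
    | _ z ih =>
    intro k hk
    ext v
    rw [mem_pi]
    constructor
    · rintro ⟨i, hi, rfl⟩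
      obtain ⟨h10, h11⟩ := h3 (i, k) hi
      have h12 : g (w (2, i, k)) ∈ z := hk ▸ h10
      have h13 : i = w (3, w (2, i, k), k0) := h11
      rw [h13, ih _ h12 _ rfl]
      exact h12
    · intro hv
      have hv' := hv
      rw [← hk] at hv'
      obtain ⟨l, rfl⟩ := hg k v hv'
      exact ⟨_, h4 (l, k) hv', ih _ hv l rfl⟩
  have hA' : ∀ k, pi h1 (w (3, k, k0)) = g k := fun k => hA _ k rfl
  have ho : ∀ a, pi h1 (w (3, jo a, k0)) = oz a := fun a => by rw [hA', hjo]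
  have h5' : ∀ d, pi h1 (w (5, d, k0)) = {oz d} := by
    intro d
    ext v
    rw [mem_pi, ZFSet.mem_singleton]
    constructor
    · rintro ⟨i, hi, rfl⟩
      have h : i = _ := (h5 (d, i)).1 hi
      rw [h]
      exact ho d
    · rintro rfl
      exact ⟨_, (h5 (d, w (3, jo d, k0))).2 rfl, ho d⟩
  have h6' : ∀ d, pi h1 (w (6, d, k0)) = {oz d, oz (x d)} := by
    intro d
    ext v
    rw [mem_pi, ZFSet.mem_pair]
    constructor
    · rintro ⟨i, hi, rfl⟩
      rcases (h6 (d, i)).1 hi with h | h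
      · left
        have h' : i = _ := h
        rw [h']
        exact ho d
      · right
        have h' : i = _ := h
        rw [h']
        exact ho _
    · rintro (rfl | rfl)
      · exact ⟨_, (h6 (d, w (3, jo d, k0))).2 (Or.inl rfl), ho d⟩
      · exact ⟨_, (h6 (d, w (3, jo (x d), k0))).2 (Or.inr rfl), ho _⟩
  have h7' : ∀ d, pi h1 (w (4, d, k0)) = pair (oz d) (oz (x d)) := by
    intro d
    ext v
    rw [mem_pi, ZFSet.pair, ZFSet.mem_pair]
    constructor
    · rintro ⟨i, hi, rfl⟩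
      rcases (h7 (d, i)).1 hi with h | h
      · left
        have h' : i = _ := h
        rw [h']
        exact h5' d
      · right
        have h' : i = _ := h
        rw [h']
        exact h6' _
    · rintro (rfl | rfl)
      · exact ⟨_, (h7 (d, w (5, d, k0))).2 (Or.inl rfl), h5' d⟩
      · exact ⟨_, (h7 (d, w (6, d, k0))).2 (Or.inr rfl), h6' _⟩
  refine ⟨pi h1, hinj, hmem, fun k v hv => ?_, hA', ?_⟩
  · obtain ⟨l, -, h⟩ := (mem_pi h1).1 hv
    exact ⟨l, h⟩
  · ext v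
    rw [mem_pi, mem_gph]
    constructor
    · rintro ⟨i, hi, rfl⟩
      refine ⟨w (7, i, k0), ?_⟩
      rw [← h7', ← h8 i hi]
    · rintro ⟨d, rfl⟩
      exact ⟨_, h9 d, h7' d⟩

theorem exists_cond (hK : Good K) {k0 : K} {g : K → ZFSet.{0}} {jo : K → K}
    (hg : ∀ k, ∀ v ∈ g k, ∃ l, g l = v) (hjo : ∀ a, g (jo a) = oz a) {x : K → K}
    {f : ZFSet.{0}} (hf : HK K f) :
    ∃ (w : ℕ × K × K → K) (e : K → ZFSet.{0}), Cond k0 g jo x w ∧ Function.Injective e ∧
      (∀ i j, e i ∈ e j ↔ Ew k0 w i j) ∧ (∀ k, ∀ v ∈ e k, ∃ l, e l = v) ∧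
      (∀ k, e (w (3, k, k0)) = g k) ∧ e (w (8, k0, k0)) = gph x ∧ e (w (9, k0, k0)) = f := by
  classical
  have hne := hK.ne
  obtain ⟨k1, hk1⟩ : ∃ k1, k1 ≠ k0 := by
    have h1 : Infinite K := by
      rw [← Cardinal.aleph0_le_mk_iff]
      exact hK.unc.le
    exact exists_ne k0
  have hgk : ∀ k, HK K (g k) := fun k => ⟨g, hg, k, rfl⟩
  obtain ⟨h, hh1, hh2⟩ := HK.join hK (ι := Option (Option K)) (by
    rw [mk_option]
    exact add_le_of_le hK.unc.le hK.card_opt (one_lt_aleph0.trans hK.unc).le)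
    (fun o => o.elim f fun o => o.elim (gph x) g) (by
      rintro (_ | _ | k)
      · exact hf
      · exact hk_gph hK x
      · exact hgk k)
  have hf' : f ∈ Set.range h := hh2 none
  have hx' : gph x ∈ Set.range h := hh2 (some none)
  have hg' : ∀ k, g k ∈ Set.range h := fun k => hh2 (some (some k))
  have htr : ∀ z ∈ Set.range h, ∀ v ∈ z, v ∈ Set.range h := by
    rintro _ ⟨k, rfl⟩ v hv
    exact hh1 k v hv
  -- a bijection of K and the range of h
  obtain ⟨e0, he0⟩ : ∃ e0 : K → Set.range h, Function.Bijective e0 := by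
    refine Function.Embedding.schroeder_bernstein (f := fun a => ⟨oz a, hjo a ▸ hg' (jo a)⟩)
      (g := fun z => z.2.choose) ?_ ?_
    · intro a b hab
      exact oz_inj (Subtype.ext_iff.1 hab)
    · intro z z' hz
      apply Subtype.ext
      have h1 := z.2.choose_spec
      have h2 := z'.2.choose_spec
      beta_reduce at hz
      rw [hz] at h1
      rw [← h1, h2]
  let e : K → ZFSet.{0} := fun k => (e0 k).1
  have hinj : Function.Injective e := fun a b hab => he0.1 (Subtype.ext hab)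
  have her : ∀ z, z ∈ Set.range h → ∃ k, e k = z := by
    intro z hz
    obtain ⟨k, hk⟩ := he0.2 ⟨z, hz⟩
    exact ⟨k, by simp only [e, hk]⟩
  have her' : ∀ k, e k ∈ Set.range h := fun k => (e0 k).2
  choose! c hc using her
  have hce : ∀ k, c (e k) = k := fun k => hinj (hc _ (her' k))
  have hpx : ∀ d, pair (oz d) (oz (x d)) ∈ Set.range h := fun d =>
    htr _ hx' _ (mem_gph.2 ⟨d, rfl⟩)
  have hp1 : ∀ d, ({oz d} : ZFSet.{0}) ∈ Set.range h := fun d =>
    htr _ (hpx d) _ (by unfold ZFSet.pair; exact ZFSet.mem_pair.2 (Or.inl rfl))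
  have hp2 : ∀ d, ({oz d, oz (x d)} : ZFSet.{0}) ∈ Set.range h := fun d =>
    htr _ (hpx d) _ (by unfold ZFSet.pair; exact ZFSet.mem_pair.2 (Or.inr rfl))
  let ws : K → K → K := fun i j => if h : ∃ z, ¬ (z ∈ e i ↔ z ∈ e j) then c h.choose else k0
  let wt : K → K → K := fun i j => if h : ∃ l, g l ∈ g j ∧ e i = g l then h.choose else k0
  let wd : K → K := fun i => if h : ∃ d, e i = pair (oz d) (oz (x d)) then h.choose else k0
  let w : ℕ × K × K → K := fun t => match t.1 with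
    | 0 => if e t.2.1 ∈ e t.2.2 then k0 else k1
    | 1 => ws t.2.1 t.2.2
    | 2 => wt t.2.1 t.2.2
    | 3 => c (g t.2.1)
    | 4 => c (pair (oz t.2.1) (oz (x t.2.1)))
    | 5 => c {oz t.2.1}
    | 6 => c {oz t.2.1, oz (x t.2.1)}
    | 7 => wd t.2.1
    | 8 => c (gph x)
    | _ => c f
  have hE : ∀ i j, e i ∈ e j ↔ Ew k0 w i j := by
    intro i j
    have h1 : w (0, i, j) = if e i ∈ e j then k0 else k1 := rfl
    unfold Ew
    rw [h1]
    split_ifs with h2
    · exact iff_of_true h2 rfl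
    · exact iff_of_false h2 hk1
  have h3 : ∀ k, e (w (3, k, k0)) = g k := fun k => hc _ (hg' k)
  have ho : ∀ a, e (w (3, jo a, k0)) = oz a := fun a => by rw [h3, hjo]
  have h4 : ∀ d, e (w (4, d, k0)) = pair (oz d) (oz (x d)) := fun d => hc _ (hpx d)
  have h5 : ∀ d, e (w (5, d, k0)) = {oz d} := fun d => hc _ (hp1 d)
  have h6 : ∀ d, e (w (6, d, k0)) = {oz d, oz (x d)} := fun d => hc _ (hp2 d)
  have h8 : e (w (8, k0, k0)) = gph x := hc _ hx'
  have h9 : e (w (9, k0, k0)) = f := hc _ hf'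
  refine ⟨w, e, ⟨?_, ?_, ?_, ?_, ?_, ?_, ?_, ?_, ?_⟩, hinj, hE, fun k v hv => ?_, h3, h8, h9⟩
  · have h10 : Ew k0 w = InvImage (· ∈ ·) e := by
      funext i j
      exact propext (hE i j).symm
    rw [h10]
    exact InvImage.wf _ ZFSet.mem_wf
  · rintro ⟨i, j⟩
    by_cases hij : i = j
    · exact Or.inl hij
    right
    have h10 : ∃ z, ¬ (z ∈ e i ↔ z ∈ e j) := by
      by_contra h10
      push Not at h10
      exact hij (hinj (ZFSet.ext h10))
    have h11 : w (1, i, j) = c h10.choose := dif_pos h10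
    have h12 : e (c h10.choose) = h10.choose := by
      apply hc
      by_cases h13 : h10.choose ∈ e i
      · exact htr _ (her' i) _ h13
      · by_cases h14 : h10.choose ∈ e j
        · exact htr _ (her' j) _ h14
        · exact absurd (iff_of_false h13 h14) h10.choose_spec
    change ¬ (Ew k0 w (w (1, i, j)) i ↔ Ew k0 w (w (1, i, j)) j)
    rw [h11, ← hE, ← hE, h12]
    exact h10.choose_spec
  · rintro ⟨i, j⟩ hij
    change Ew k0 w i (w (3, j, k0)) at hij
    rw [← hE, h3] at hij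
    obtain ⟨l, hl⟩ := hg j _ hij
    have h10 : ∃ l, g l ∈ g j ∧ e i = g l := ⟨l, hl.symm ▸ hij, hl.symm⟩
    have h11 : w (2, i, j) = h10.choose := dif_pos h10
    obtain ⟨h12, h13⟩ := h10.choose_spec
    refine ⟨?_, hinj ?_⟩
    · change g (w (2, i, j)) ∈ g j
      rw [h11]
      exact h12
    · change e i = e (w (3, w (2, i, j), k0))
      rw [h3, h11, ← h13]
  · rintro ⟨i, j⟩ hij
    change Ew k0 w (w (3, i, k0)) (w (3, j, k0))
    rw [← hE, h3, h3]
    exact hij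
  · rintro ⟨d, i⟩
    change Ew k0 w i (w (5, d, k0)) ↔ i = w (3, jo d, k0)
    rw [← hE, h5, ZFSet.mem_singleton, ← ho d]
    exact hinj.eq_iff
  · rintro ⟨d, i⟩
    change Ew k0 w i (w (6, d, k0)) ↔ i = w (3, jo d, k0) ∨ i = w (3, jo (x d), k0)
    rw [← hE, h6, ZFSet.mem_pair, ← ho d, ← ho (x d), hinj.eq_iff, hinj.eq_iff]
  · rintro ⟨d, i⟩
    change Ew k0 w i (w (4, d, k0)) ↔ i = w (5, d, k0) ∨ i = w (6, d, k0)
    rw [← hE, h4, ZFSet.pair, ZFSet.mem_pair, ← h5 d, ← h6 d, hinj.eq_iff, hinj.eq_iff]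
  · intro i hi
    rw [← hE, h8, mem_gph] at hi
    obtain ⟨d, hd⟩ := hi
    have h10 : ∃ d, e i = pair (oz d) (oz (x d)) := ⟨d, hd.symm⟩
    have h11 : w (7, i, k0) = h10.choose := dif_pos h10
    apply hinj
    rw [h4, h11]
    exact h10.choose_spec
  · intro d
    rw [← hE, h4, h8, mem_gph]
    exact ⟨d, rfl⟩
  · obtain ⟨l, hl⟩ := hh1 (Classical.choose (her' k)) v (by
      rw [Classical.choose_spec (her' k)]
      exact hv)
    obtain ⟨m, hm⟩ := he0.2 ⟨v, ⟨l, hl⟩⟩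
    exact ⟨m, by simp only [e, hm]⟩

/-- A set that is defined by an absolute formula with a witness of hereditary size at most `κ`
is the projection of a closed set. -/
theorem s11_of_d0 (hK : Good K) {n : ℕ} {R : (Fin (n + 2) → ZFSet.{0}) → Prop} (hR : D0 R)
    (p : Fin n → ZFSet.{0}) (hp : ∀ i, HK K (p i)) :
    S11 fun x : K → K => ∃ f, HK K f ∧ R (Fin.cons f (Fin.cons (gph x) p)) := by
  classical
  obtain ⟨φ, hφ⟩ := hR
  obtain ⟨k0⟩ := hK.ne
  obtain ⟨g, hg, hg'⟩ := HK.join hK (ι := Fin n ⊕ K) (by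
    rw [mk_sum, lift_id, lift_id]
    refine add_le_of_le hK.unc.le ?_ le_rfl
    exact (lt_aleph0_of_finite _).le.trans hK.unc.le) (fun t => t.elim p oz) (by
      rintro (i | a)
      · exact hp i
      · exact hk_oz a)
  choose jp hjp using fun i => hg' (Sum.inl i)
  choose jo hjo using fun a => hg' (Sum.inr a)
  have hJ : #(ℕ × K × K) ≤ #K := by
    have h1 : #(ℕ × K × K) = #ℕ * (#K * #K) := by simp
    rw [h1, mul_eq_self hK.unc.le]
    exact (mul_le_mul_left (by simpa using hK.unc.le) _).trans (mul_eq_self hK.unc.le).le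
  let G : (K ⊕ (ℕ × K × K) → K) → (K × K) ⊕ Fin (n + 2) → K := fun u =>
    Sum.elim (fun t => u (Sum.inr (0, t.1, t.2))) (Fin.cons (u (Sum.inr (9, k0, k0)))
      (Fin.cons (u (Sum.inr (8, k0, k0))) fun i => u (Sum.inr (3, jp i, k0))))
  have hG : ∀ j, LocF fun u => G u j := by
    rintro (t | i)
    · exact LocF.coord hK _
    · refine Fin.cases ?_ (fun i => ?_) i
      · exact LocF.coord hK _
      · refine Fin.cases ?_ (fun i => ?_) i
        · exact LocF.coord hK _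
        · exact LocF.coord hK _
  have h1 := ((clp_cond hK k0 g jo).s11 hK).and hK ((sat_s11 hK k0 φ).1.comp hK hG)
  refine (S11.exF hK hJ h1).congr fun x => ?_
  have hv : ∀ (e : K → ZFSet.{0}) (a b : K) (t : Fin n → K),
      (fun i => e ((Fin.cons a (Fin.cons b t) : Fin (n + 2) → K) i)) =
        Fin.cons (e a) (Fin.cons (e b) fun i => e (t i)) := by
    intro e a b t
    funext i
    refine Fin.cases ?_ (fun i => ?_) i
    · rfl
    · refine Fin.cases ?_ (fun i => ?_) i <;> rfl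
  have hsat : ∀ (w : ℕ × K × K → K) (e : K → ZFSet.{0}), Function.Injective e →
      (∀ i j, e i ∈ e j ↔ Ew k0 w i j) → (∀ k, ∀ v ∈ e k, ∃ l, e l = v) →
      (∀ k, e (w (3, k, k0)) = g k) → e (w (8, k0, k0)) = gph x →
      (SatE (fun i j => w (0, i, j) = k0) φ (Fin.cons (w (9, k0, k0))
        (Fin.cons (w (8, k0, k0)) fun i => w (3, jp i, k0))) ↔
        R (Fin.cons (e (w (9, k0, k0))) (Fin.cons (gph x) p))) := by
    intro w e he1 he2 he3 he4 he5
    change SatE (Ew k0 w) φ _ ↔ _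
    rw [← sat_iff he1 he2, hv, he5]
    have h2 : (fun i => e (w (3, jp i, k0))) = p := by
      funext i
      rw [he4]
      exact hjp i
    rw [h2]
    refine hφ (Set.range e) ?_ _ ?_
    · rintro _ ⟨k, rfl⟩ v hv
      exact he3 k v hv
    · intro i
      refine Fin.cases ?_ (fun i => ?_) i
      · exact ⟨_, rfl⟩
      · refine Fin.cases ?_ (fun i => ?_) i
        · exact ⟨_, he5⟩
        · exact ⟨_, (he4 _).trans (hjp i)⟩
  constructor
  · rintro ⟨w, hw1, hw2⟩
    obtain ⟨e, he1, he2, he3, he4, he5⟩ := cond_spec hg hjo hw1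
    exact ⟨e (w (9, k0, k0)), ⟨e, he3, _, rfl⟩, (hsat w e he1 he2 he3 he4 he5).1 hw2⟩
  · rintro ⟨f, hf, hRf⟩
    obtain ⟨w, e, hw, he1, he2, he3, he4, he5, he6⟩ := exists_cond hK (k0 := k0) hg hjo
      (x := x) hf
    refine ⟨w, hw, ?_⟩
    have h2 := hsat w e he1 he2 he3 he4 he5
    rw [he6] at h2
    exact h2.2 hRf

end

end Pool.Agent.H635.LM
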