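import Mathlib

/-!
# Laver trees on a regular cardinal: the definitions

`K` is a well-ordered type; in the application it is the type of the ordinals below an
uncountable regular cardinal.
-/

set_option autoImplicit false

namespace Pool.Agent.H635.LM

open Set Cardinal

/-- A sequence of elements of `K` of length `len`. -/
structure Node (K : Type) [LinearOrder K] where
  len : K
  val : Iio len → K

section

variable {K : Type} [LinearOrder K] [WellFoundedLT K] [SuccOrder K]

/-- The initial segment of length `a` of the function `x`. -/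
def res (x : K → K) (a : K) : Node K := ⟨a, fun b => x b⟩

/-- The initial segment of length `a` of the function `x`, followed by `c`. -/
noncomputable def app (x : K → K) (a c : K) : Node K :=
  open Classical in res (Function.update x a c) (Order.succ a)

/-- Closed and unbounded. -/
def IsClub (C : Set K) : Prop :=
  (∀ a, ∃ b ∈ C, a < b) ∧ ∀ d, (∃ a, a < d) → (∀ a < d, ∃ b ∈ C, a < b ∧ b < d) → d ∈ C

/-- `T` is a tree of strictly increasing sequences. -/
def IsTree (T : Set (Node K)) : Prop :=
  (∀ x a, res x a ∈ T → ∀ b c, b < c → c < a → x b < x c) ∧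
    ∀ x a b, b ≤ a → res x a ∈ T → res x b ∈ T

/-- The node `res x a` of `T` is comparable with all nodes of `T`, and all nodes of `T` that
extend it are club-splitting. -/
def IsStem (T : Set (Node K)) (x : K → K) (a : K) : Prop :=
  res x a ∈ T ∧ (∀ y b, res y b ∈ T → ∀ c, c < a → c < b → x c = y c) ∧
    ∀ y b, a ≤ b → res y b ∈ T → IsClub {c | app y b c ∈ T}

/-- `T` is a `κ`-Laver tree: a pruned tree of increasing sequences that is closed under unions
of short increasing chains (that is, it contains the sequences of limit length all of whose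
proper initial segments it contains) and has a stem such that all nodes that extend the stem are
club-splitting. -/
def IsLaver (T : Set (Node K)) : Prop :=
  IsTree T ∧ (∀ x a, res x a ∈ T → ∃ y b, a < b ∧ (∀ c < a, y c = x c) ∧ res y b ∈ T) ∧
    (∀ x a, (∃ b, b < a) → (∀ b < a, ∃ c, b < c ∧ c < a) → (∀ b < a, res x b ∈ T) →
      res x a ∈ T) ∧ ∃ x a, IsStem T x a

/-- The set of the branches of `T`. -/
def br (T : Set (Node K)) : Set (K → K) := {x | ∀ a, res x a ∈ T}

/-- The null sets. -/
def Null (A : Set (K → K)) : Prop :=
  ∀ T, IsLaver T → ∃ S, IsLaver S ∧ S ⊆ T ∧ br S ∩ A = ∅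

/-- The meager sets. -/
def Meager (A : Set (K → K)) : Prop :=
  ∃ N : K → Set (K → K), (∀ i, Null (N i)) ∧ A = ⋃ i, N i

/-- The measurable sets. -/
def Meas (A : Set (K → K)) : Prop :=
  ∀ T, IsLaver T → ∃ S, IsLaver S ∧ S ⊆ T ∧ (Meager (br S \ A) ∨ Meager (br S ∩ A))

/-- The topology with the basic open sets `[s]`. -/
def bdTop (K : Type) [LinearOrder K] : TopologicalSpace (K → K) :=
  TopologicalSpace.generateFrom {U | ∃ (s : K → K) (a : K), U = {x | ∀ b < a, x b = s b}}

/-- Projections of closed sets. -/
def IsSigma (A : Set (K → K)) : Prop :=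
  ∃ C : Set ((K → K) × (K → K)),
    @IsClosed _ (@instTopologicalSpaceProd _ _ (bdTop K) (bdTop K)) C ∧ A = {x | ∃ y, (x, y) ∈ C}

/-- The sets `A` such that `A` and its complement are projections of closed sets. -/
def IsDelta (A : Set (K → K)) : Prop := IsSigma A ∧ IsSigma Aᶜ

end

end Pool.Agent.H635.LM
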