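import Pool.Graph.R_seed8.W868.Cond

/-!
# A canonical well-ordering of the levels of the constructible hierarchy
-/

set_option autoImplicit false
set_option linter.unreachableTactic false
set_option linter.unusedTactic false

namespace Pool.Agent.H635.LM

open ZFSet (pair)
open Pool.Agent.W868

/-- The order of `X ∪ {X}`. -/
def Lp (X R a b : ZFSet.{0}) : Prop := (a ∈ X ∧ b ∈ X ∧ pair a b ∈ R) ∨ (a ∈ X ∧ b = X)

/-- The order of the codes. -/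
def Lx (X R : ZFSet.{0}) (i : ℕ) (a b : ZFSet.{0}) (i' : ℕ) (a' b' : ZFSet.{0}) : Prop :=
  i < i' ∨ (i = i' ∧ (Lp X R a a' ∨ (a = a' ∧ Lp X R b b')))

/-- `y` has a code that is less than all codes of `y'`. -/
def Cdl (A X R y y' : ZFSet.{0}) : Prop :=
  ∃ i < 11, ∃ a ∈ (insert X X : ZFSet.{0}), ∃ b ∈ (insert X X : ZFSet.{0}), Vl A X y a b i ∧
    ∀ i' < 11, ∀ a' ∈ (insert X X : ZFSet.{0}), ∀ b' ∈ (insert X X : ZFSet.{0}),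
      Vl A X y' a' b' i' → Lx X R i a b i' a' b'

/-- `y'` is new at the level after `X`, and `y` comes before `y'`. -/
def NO (A X R y y' : ZFSet.{0}) : Prop :=
  y' ∈ step A X ∧ ¬ y' ∈ X ∧ (y ∈ X ∨ (y ∈ step A X ∧ ¬ y ∈ X ∧ Cdl A X R y y'))

section d0

variable {n : ℕ} {F G H K L : (Fin n → ZFSet.{0}) → ZFSet.{0}}

theorem d0_const (p : Prop) : D0 fun _ : Fin n → ZFSet.{0} => p := by
  by_cases h : p
  · exact D0.tt.congr fun _ => (iff_true_right h).symm.trans (by simp [h])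
  · exact D0.tt.not.congr fun _ => by simp [h]

theorem d0_Lp (hF : D0v F) (hG : D0v G) (hH : D0v H) (hK : D0v K) :
    D0 fun v => Lp (F v) (G v) (H v) (K v) := by
  unfold Lp
  (repeat' first
      | assumption
      | exact D0v.proj _
      | apply D0.pairMem | apply D0.and | apply D0.or | apply D0.eq | apply D0.mem)

theorem d0_Lx (hF : D0v F) (hG : D0v G) {a b a' b' : (Fin n → ZFSet.{0}) → ZFSet.{0}}
    (ha : D0v a) (hb : D0v b) (ha' : D0v a') (hb' : D0v b') (i i' : ℕ) :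
    D0 fun v => Lx (F v) (G v) i (a v) (b v) i' (a' v) (b' v) := by
  unfold Lx
  (repeat' first
      | assumption
      | exact d0_const _
      | exact D0v.proj _
      | apply d0_Lp
      | apply D0.and | apply D0.or | apply D0.eq)

theorem d0_Cdl (hF : D0v F) (hG : D0v G) (hH : D0v H) (hK : D0v K) (hL : D0v L) :
    D0 fun v => Cdl (F v) (G v) (H v) (K v) (L v) := by
  unfold Cdl
  apply D0.exLt
  intro i
  apply D0.bexIns hG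
  apply D0.bexIns hG.tail
  apply D0.and
  · exact d0_Vl hF.tail.tail hG.tail.tail hK.tail.tail (D0v.proj 1) (D0v.proj 0) i
  · apply D0.allLt
    intro i'
    apply D0.ballIns hG.tail.tail
    apply D0.ballIns hG.tail.tail.tail
    apply D0.imp
    · exact d0_Vl hF.tail.tail.tail.tail hG.tail.tail.tail.tail hL.tail.tail.tail.tail
        (D0v.proj 1) (D0v.proj 0) i'
    · exact d0_Lx hG.tail.tail.tail.tail hH.tail.tail.tail.tail (D0v.proj 3) (D0v.proj 2)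
        (D0v.proj 1) (D0v.proj 0) i i'

theorem d0_NO (hF : D0v F) (hG : D0v G) (hH : D0v H) (hK : D0v K) (hL : D0v L) :
    D0 fun v => NO (F v) (G v) (H v) (K v) (L v) := by
  unfold NO
  (repeat' first
      | assumption
      | exact D0v.proj _
      | apply d0_memStep | apply d0_Cdl
      | apply D0.not | apply D0.and | apply D0.or | apply D0.mem)

end d0

/-! ### The hierarchy of well-orderings -/

/-- The well-ordering of the level. -/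
noncomputable def Wz (A : ZFSet.{0}) : ZFSet.{0} → ZFSet.{0} :=
  wfF (fun z => z) ZFSet.mem_wf fun ξ g =>
    ZFSet.sep (fun p => ∃ y y', p = pair y y' ∧ ∃ q ∈ g, ∃ η S, q = pair η S ∧
      NO A (Lv A η) S y y') (ZFSet.prod (Lv A ξ) (Lv A ξ))

theorem Wz_eq (A ξ : ZFSet.{0}) : Wz A ξ =
    ZFSet.sep (fun p => ∃ y y', p = pair y y' ∧ ∃ q ∈ gr (Wz A) ξ, ∃ η S, q = pair η S ∧
      NO A (Lv A η) S y y') (ZFSet.prod (Lv A ξ) (Lv A ξ)) := by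
  rw [Wz, wfF_eq]

theorem NO.mem {A η R y y' : ZFSet.{0}} (h : NO A (Lv A η) R y y') :
    y ∈ step A (Lv A η) ∧ y' ∈ step A (Lv A η) := by
  refine ⟨?_, h.1⟩
  rcases h.2.2 with h1 | h1
  · exact subset_step h1
  · exact h1.1

theorem mem_Wz {A ξ y y' : ZFSet.{0}} :
    pair y y' ∈ Wz A ξ ↔ ∃ η ∈ ξ, NO A (Lv A η) (Wz A η) y y' := by
  rw [Wz_eq, ZFSet.mem_sep]
  constructor
  · rintro ⟨-, z, z', h1, q, hq, η, S, rfl, h2⟩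
    obtain ⟨rfl, rfl⟩ := ZFSet.pair_inj.1 h1
    obtain ⟨u, hu, h3⟩ := mem_gr.1 hq
    obtain ⟨rfl, rfl⟩ := ZFSet.pair_inj.1 h3
    exact ⟨_, hu, h2⟩
  · rintro ⟨η, hη, h⟩
    refine ⟨ZFSet.pair_mem_prod.2 ⟨step_subset_Lv hη h.mem.1, step_subset_Lv hη h.mem.2⟩, y, y',
      rfl, _, mem_gr.2 ⟨η, hη, rfl⟩, η, _, rfl, h⟩

theorem Wz_form {A ξ t : ZFSet.{0}} (h : t ∈ Wz A ξ) :
    ∃ y ∈ Lv A ξ, ∃ y' ∈ Lv A ξ, t = pair y y' := by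
  rw [Wz_eq, ZFSet.mem_sep] at h
  exact ZFSet.mem_prod.1 h.1

/-- `y` is new at the level `η + 1`. -/
def Nw (A η y : ZFSet.{0}) : Prop := y ∈ step A (Lv A η) ∧ ¬ y ∈ Lv A η

theorem exists_new {A ξ y : ZFSet.{0}} (hξ : ξ.IsOrdinal) (h : y ∈ Lv A ξ) :
    ∃ η ∈ ξ, Nw A η y := by
  obtain ⟨u, hu, h1⟩ := mem_Lv.1 h
  have hne : {η : ZFSet.{0} | η ∈ ξ ∧ y ∈ step A (Lv A η)}.Nonempty := ⟨u, hu, h1⟩
  obtain ⟨h2, h3⟩ := ZFSet.mem_wf.min_mem _ hne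
  by_cases h4 : y ∈ Lv A (ZFSet.mem_wf.min _ hne)
  · obtain ⟨w, hw, h5⟩ := mem_Lv.1 h4
    exact absurd hw (ZFSet.mem_wf.not_lt_min {η : ZFSet.{0} | η ∈ ξ ∧ y ∈ step A (Lv A η)}
      (x := w) ⟨hξ.mem_trans hw h2, h5⟩)
  · exact ⟨_, h2, h3, h4⟩

theorem Nw.uniq {A η η' y : ZFSet.{0}} (hη : η.IsOrdinal) (hη' : η'.IsOrdinal) (h : Nw A η y)
    (h' : Nw A η' y) : η = η' := by
  rcases hη.mem_trichotomous hη' with h1 | h1 | h1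
  · exact absurd (step_subset_Lv h1 h.1) h'.2
  · exact h1
  · exact absurd (step_subset_Lv h1 h'.1) h.2

theorem Nw.not_mem {A η ξ y : ZFSet.{0}} (hη : η.IsOrdinal) (hξ : ξ.IsOrdinal) (h : Nw A η y)
    (h1 : y ∈ Lv A ξ) : η ∈ ξ := by
  rcases hη.mem_or_subset hξ with h2 | h2
  · exact h2
  · exact absurd (Lv_mono h2 h1) h.2

theorem NO.new {A η R y y' : ZFSet.{0}} (h : NO A (Lv A η) R y y') : Nw A η y' := ⟨h.1, h.2.1⟩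

/-- Initial segments. -/
theorem Wz_restrict {A ξ ζ y y' : ZFSet.{0}} (hξ : ξ.IsOrdinal) (hζ : ζ.IsOrdinal) (h : ζ ⊆ ξ)
    (hy : y' ∈ Lv A ζ) : pair y y' ∈ Wz A ξ ↔ pair y y' ∈ Wz A ζ := by
  rw [mem_Wz, mem_Wz]
  constructor
  · rintro ⟨η, hη, h1⟩
    exact ⟨η, h1.new.not_mem (hξ.mem hη) hζ hy, h1⟩
  · rintro ⟨η, hη, h1⟩
    exact ⟨η, h hη, h1⟩

/-- `R` is a well-ordering of `X`. -/
structure WOn (X R : ZFSet.{0}) : Prop where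
  tri : ∀ a ∈ X, ∀ b ∈ X, pair a b ∈ R ∨ a = b ∨ pair b a ∈ R
  tra : ∀ a ∈ X, ∀ b ∈ X, ∀ c ∈ X, pair a b ∈ R → pair b c ∈ R → pair a c ∈ R
  wf : ∀ S : ZFSet.{0} → Prop, (∃ a ∈ X, S a) → ∃ m ∈ X, S m ∧ ∀ b ∈ X, S b → ¬ pair b m ∈ R

section step

variable {X R : ZFSet.{0}} (hW : WOn X R)

include hW

theorem Lp.tri {a b : ZFSet.{0}} (ha : a ∈ (insert X X : ZFSet.{0}))
    (hb : b ∈ (insert X X : ZFSet.{0})) : Lp X R a b ∨ a = b ∨ Lp X R b a := by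
  rcases ZFSet.mem_insert_iff.1 ha with rfl | ha
  · rcases ZFSet.mem_insert_iff.1 hb with rfl | hb
    · exact Or.inr (Or.inl rfl)
    · exact Or.inr (Or.inr (Or.inr ⟨hb, rfl⟩))
  · rcases ZFSet.mem_insert_iff.1 hb with rfl | hb
    · exact Or.inl (Or.inr ⟨ha, rfl⟩)
    · rcases hW.tri a ha b hb with h | h | h
      · exact Or.inl (Or.inl ⟨ha, hb, h⟩)
      · exact Or.inr (Or.inl h)
      · exact Or.inr (Or.inr (Or.inl ⟨hb, ha, h⟩))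

theorem Lp.tra {a b c : ZFSet.{0}} (h1 : Lp X R a b) (h2 : Lp X R b c) : Lp X R a c := by
  rcases h1 with ⟨ha, hb, h1⟩ | ⟨ha, rfl⟩
  · rcases h2 with ⟨-, hc, h2⟩ | ⟨-, rfl⟩
    · exact Or.inl ⟨ha, hc, hW.tra a ha b hb c hc h1 h2⟩
    · exact Or.inr ⟨ha, rfl⟩
  · rcases h2 with ⟨h, -⟩ | ⟨h, -⟩ <;> exact absurd h (ZFSet.mem_irrefl _)

theorem Lp.wf (S : ZFSet.{0} → Prop) (h : ∃ a ∈ (insert X X : ZFSet.{0}), S a) :
    ∃ m ∈ (insert X X : ZFSet.{0}), S m ∧ ∀ b, S b → ¬ Lp X R b m := by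
  by_cases h1 : ∃ a ∈ X, S a
  · obtain ⟨m, hm, h2, h3⟩ := hW.wf S h1
    refine ⟨m, ZFSet.mem_insert_of_mem _ hm, h2, fun b hb h4 => ?_⟩
    rcases h4 with ⟨h5, -, h6⟩ | ⟨-, rfl⟩
    · exact h3 b h5 hb h6
    · exact ZFSet.mem_irrefl _ hm
  · obtain ⟨a, ha, h2⟩ := h
    rcases ZFSet.mem_insert_iff.1 ha with rfl | ha
    · refine ⟨a, ZFSet.mem_insert _ _, h2, fun b hb h4 => ?_⟩
      rcases h4 with ⟨h5, -⟩ | ⟨h5, -⟩ <;> exact h1 ⟨b, h5, hb⟩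
    · exact absurd ⟨a, ha, h2⟩ h1

theorem Lx.tri {i i' : ℕ} {a b a' b' : ZFSet.{0}} (ha : a ∈ (insert X X : ZFSet.{0}))
    (hb : b ∈ (insert X X : ZFSet.{0})) (ha' : a' ∈ (insert X X : ZFSet.{0}))
    (hb' : b' ∈ (insert X X : ZFSet.{0})) :
    Lx X R i a b i' a' b' ∨ (i = i' ∧ a = a' ∧ b = b') ∨ Lx X R i' a' b' i a b := by
  rcases lt_trichotomy i i' with h | rfl | h
  · exact Or.inl (Or.inl h)
  · rcases Lp.tri hW ha ha' with h | rfl | h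
    · exact Or.inl (Or.inr ⟨rfl, Or.inl h⟩)
    · rcases Lp.tri hW hb hb' with h | rfl | h
      · exact Or.inl (Or.inr ⟨rfl, Or.inr ⟨rfl, h⟩⟩)
      · exact Or.inr (Or.inl ⟨rfl, rfl, rfl⟩)
      · exact Or.inr (Or.inr (Or.inr ⟨rfl, Or.inr ⟨rfl, h⟩⟩))
    · exact Or.inr (Or.inr (Or.inr ⟨rfl, Or.inl h⟩))
  · exact Or.inr (Or.inr (Or.inl h))

theorem Lx.tra {i i' i'' : ℕ} {a b a' b' a'' b'' : ZFSet.{0}} (h1 : Lx X R i a b i' a' b')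
    (h2 : Lx X R i' a' b' i'' a'' b'') : Lx X R i a b i'' a'' b'' := by
  rcases h1 with h1 | ⟨rfl, h1⟩
  · rcases h2 with h2 | ⟨rfl, -⟩
    · exact Or.inl (h1.trans h2)
    · exact Or.inl h1
  · rcases h2 with h2 | ⟨rfl, h2⟩
    · exact Or.inl h2
    · refine Or.inr ⟨rfl, ?_⟩
      rcases h1 with h1 | ⟨rfl, h1⟩
      · rcases h2 with h2 | ⟨rfl, -⟩
        · exact Or.inl (h1.tra hW h2)
        · exact Or.inl h1
      · rcases h2 with h2 | ⟨rfl, h2⟩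
        · exact Or.inl h2
        · exact Or.inr ⟨rfl, h1.tra hW h2⟩

/-- A set of codes has a least element. -/
theorem Lx.wf (S : ℕ → ZFSet.{0} → ZFSet.{0} → Prop)
    (h : ∃ i, ∃ a ∈ (insert X X : ZFSet.{0}), ∃ b ∈ (insert X X : ZFSet.{0}), S i a b) :
    ∃ i, ∃ a ∈ (insert X X : ZFSet.{0}), ∃ b ∈ (insert X X : ZFSet.{0}), S i a b ∧
      ∀ i', ∀ a' ∈ (insert X X : ZFSet.{0}), ∀ b' ∈ (insert X X : ZFSet.{0}), S i' a' b' →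
        ¬ Lx X R i' a' b' i a b := by
  classical
  let i := Nat.find h
  obtain ⟨a, ha, b, hb, h1⟩ := Nat.find_spec h
  have hi : ∀ i' < i, ¬ ∃ a ∈ (insert X X : ZFSet.{0}), ∃ b ∈ (insert X X : ZFSet.{0}),
      S i' a b := fun i' hi' => Nat.find_min h hi'
  obtain ⟨a, ha, ⟨b, hb, h1⟩, h2⟩ := Lp.wf hW (fun a => ∃ b ∈ (insert X X : ZFSet.{0}), S i a b)
    ⟨a, ha, b, hb, h1⟩
  obtain ⟨b, hb, h1, h3⟩ := Lp.wf hW (fun b => S i a b) ⟨b, hb, h1⟩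
  refine ⟨i, a, ha, b, hb, h1, fun i' a' ha' b' hb' h4 h5 => ?_⟩
  rcases h5 with h5 | ⟨rfl, h5⟩
  · exact hi i' h5 ⟨a', ha', b', hb', h4⟩
  · rcases h5 with h5 | ⟨rfl, h5⟩
    · exact h2 a' ⟨b', hb', h4⟩ h5
    · exact h3 b' h4 h5

variable {A : ZFSet.{0}}

omit hW in
theorem exists_code {y : ZFSet.{0}} (h : y ∈ step A X) (h' : ¬ y ∈ X) : ∃ i < 11,
    ∃ a ∈ (insert X X : ZFSet.{0}), ∃ b ∈ (insert X X : ZFSet.{0}), Vl A X y a b i := by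
  rcases mem_step.1 h with h | ⟨i, hi, a, ha, b, hb, h⟩
  · exact absurd h h'
  · exact ⟨i, hi, a, ha, b, hb, h⟩

omit hW in
theorem Vl.uniq {y y' a b : ZFSet.{0}} {i : ℕ} (h : Vl A X y a b i) (h' : Vl A X y' a b i) :
    y = y' := by
  ext u
  rw [h, h']

/-- The least code of a new element. -/
theorem least_code {y : ZFSet.{0}} (h : y ∈ step A X) (h' : ¬ y ∈ X) : ∃ i < 11,
    ∃ a ∈ (insert X X : ZFSet.{0}), ∃ b ∈ (insert X X : ZFSet.{0}), Vl A X y a b i ∧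
      ∀ i' < 11, ∀ a' ∈ (insert X X : ZFSet.{0}), ∀ b' ∈ (insert X X : ZFSet.{0}),
        Vl A X y a' b' i' → (i = i' ∧ a = a' ∧ b = b') ∨ Lx X R i a b i' a' b' := by
  obtain ⟨i, a, ha, b, hb, ⟨hi, h1⟩, h2⟩ := Lx.wf hW (fun i a b => i < 11 ∧ Vl A X y a b i) (by
    obtain ⟨i, hi, a, ha, b, hb, h1⟩ := exists_code h h'
    exact ⟨i, a, ha, b, hb, hi, h1⟩)
  refine ⟨i, hi, a, ha, b, hb, h1, fun i' hi' a' ha' b' hb' h3 => ?_⟩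
  rcases Lx.tri hW (i := i) (i' := i') ha hb ha' hb' with h4 | h4 | h4
  · exact Or.inr h4
  · exact Or.inl h4
  · exact absurd h4 (h2 i' a' ha' b' hb' ⟨hi', h3⟩)

theorem Cdl.tri {y y' : ZFSet.{0}} (hy : y ∈ step A X) (hy1 : ¬ y ∈ X) (hy' : y' ∈ step A X)
    (hy1' : ¬ y' ∈ X) : Cdl A X R y y' ∨ y = y' ∨ Cdl A X R y' y := by
  obtain ⟨i, hi, a, ha, b, hb, h1, h2⟩ := least_code hW (A := A) hy hy1
  obtain ⟨i', hi', a', ha', b', hb', h1', h2'⟩ := least_code hW (A := A) hy' hy1'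
  rcases Lx.tri hW (i := i) (i' := i') ha hb ha' hb' with h3 | ⟨rfl, rfl, rfl⟩ | h3
  · left
    refine ⟨i, hi, a, ha, b, hb, h1, fun j hj c hc d hd h4 => ?_⟩
    rcases h2' j hj c hc d hd h4 with ⟨rfl, rfl, rfl⟩ | h5
    · exact h3
    · exact h3.tra hW h5
  · right
    left
    exact Vl.uniq h1 h1'
  · right
    right
    refine ⟨i', hi', a', ha', b', hb', h1', fun j hj c hc d hd h4 => ?_⟩
    rcases h2 j hj c hc d hd h4 with ⟨rfl, rfl, rfl⟩ | h5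
    · exact h3
    · exact h3.tra hW h5

theorem Cdl.tra {y y' y'' : ZFSet.{0}} (h1 : Cdl A X R y y') (h2 : Cdl A X R y' y'') :
    Cdl A X R y y'' := by
  obtain ⟨i, hi, a, ha, b, hb, h3, h4⟩ := h1
  obtain ⟨i', hi', a', ha', b', hb', h5, h6⟩ := h2
  exact ⟨i, hi, a, ha, b, hb, h3, fun j hj c hc d hd h7 =>
    (h4 i' hi' a' ha' b' hb' h5).tra hW (h6 j hj c hc d hd h7)⟩

theorem Cdl.wf (S : ZFSet.{0} → Prop) (h : ∃ y, y ∈ step A X ∧ ¬ y ∈ X ∧ S y) :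
    ∃ y, (y ∈ step A X ∧ ¬ y ∈ X ∧ S y) ∧ ∀ y', S y' → ¬ y' ∈ X → y' ∈ step A X →
      ¬ Cdl A X R y' y := by
  obtain ⟨i, a, ha, b, hb, ⟨hi, y, h1, h2, h3, h4⟩, h5⟩ := Lx.wf hW
    (fun i a b => i < 11 ∧ ∃ y, y ∈ step A X ∧ ¬ y ∈ X ∧ S y ∧ Vl A X y a b i) (by
      obtain ⟨y, h1, h2, h3⟩ := h
      obtain ⟨i, hi, a, ha, b, hb, h4⟩ := exists_code h1 h2
      exact ⟨i, a, ha, b, hb, hi, y, h1, h2, h3, h4⟩)
  refine ⟨y, ⟨h1, h2, h3⟩, fun y' h6 h7 h8 h9 => ?_⟩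
  obtain ⟨j, hj, c, hc, d, hd, h10, h11⟩ := h9
  exact h5 j c hc d hd ⟨hj, y', h8, h7, h6, h10⟩ (h11 i hi a ha b hb h4)

end step

theorem wOn_Wz (A : ZFSet.{0}) {ξ : ZFSet.{0}} (hξ : ξ.IsOrdinal) : WOn (Lv A ξ) (Wz A ξ) := by
  induction ξ using ZFSet.inductionOn with
  | _ ξ ih =>
  have hW : ∀ η ∈ ξ, WOn (Lv A η) (Wz A η) := fun η hη => ih η hη (hξ.mem hη)
  constructor
  · intro a ha b hb
    obtain ⟨η, hη, h1⟩ := exists_new hξ ha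
    obtain ⟨ζ, hζ, h2⟩ := exists_new hξ hb
    rcases (hξ.mem hη).mem_trichotomous (hξ.mem hζ) with h3 | rfl | h3
    · left
      exact mem_Wz.2 ⟨ζ, hζ, h2.1, h2.2, Or.inl (step_subset_Lv h3 h1.1)⟩
    · rcases Cdl.tri (hW η hη) h1.1 h1.2 h2.1 h2.2 with h4 | h4 | h4
      · left
        exact mem_Wz.2 ⟨η, hη, h2.1, h2.2, Or.inr ⟨h1.1, h1.2, h4⟩⟩
      · exact Or.inr (Or.inl h4)
      · right
        right
        exact mem_Wz.2 ⟨η, hη, h1.1, h1.2, Or.inr ⟨h2.1, h2.2, h4⟩⟩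
    · right
      right
      exact mem_Wz.2 ⟨η, hη, h1.1, h1.2, Or.inl (step_subset_Lv h3 h2.1)⟩
  · intro a _ b _ c _ h1 h2
    obtain ⟨η, hη, h3⟩ := mem_Wz.1 h1
    obtain ⟨ζ, hζ, h4⟩ := mem_Wz.1 h2
    rcases h4.2.2 with h5 | h5
    · have h6 : η ∈ ζ := h3.new.not_mem (hξ.mem hη) (hξ.mem hζ) h5
      exact mem_Wz.2 ⟨ζ, hζ, h4.1, h4.2.1, Or.inl (step_subset_Lv h6 h3.mem.1)⟩
    · have h6 : η = ζ := h3.new.uniq (hξ.mem hη) (hξ.mem hζ) ⟨h5.1, h5.2.1⟩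
      subst h6
      rcases h3.2.2 with h7 | h7
      · exact mem_Wz.2 ⟨η, hη, h4.1, h4.2.1, Or.inl h7⟩
      · exact mem_Wz.2 ⟨η, hη, h4.1, h4.2.1, Or.inr ⟨h7.1, h7.2.1,
          h7.2.2.tra (hW η hη) h5.2.2⟩⟩
  · intro S hS
    have hne : {η : ZFSet.{0} | η ∈ ξ ∧ ∃ y, Nw A η y ∧ S y}.Nonempty := by
      obtain ⟨a, ha, h1⟩ := hS
      obtain ⟨η, hη, h2⟩ := exists_new hξ ha
      exact ⟨η, hη, a, h2, h1⟩
    obtain ⟨hη, y0, h1, h2⟩ := ZFSet.mem_wf.min_mem _ hne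
    have hmin : ∀ ζ ∈ ξ, (∃ y, Nw A ζ y ∧ S y) → ¬ ζ ∈ ZFSet.mem_wf.min _ hne :=
      fun ζ hζ h => ZFSet.mem_wf.not_lt_min {η : ZFSet.{0} | η ∈ ξ ∧ ∃ y, Nw A η y ∧ S y}
        (x := ζ) ⟨hζ, h⟩
    set η := ZFSet.mem_wf.min _ hne
    obtain ⟨m, ⟨h3, h4, h5⟩, h6⟩ := Cdl.wf (hW η hη) (A := A) S ⟨y0, h1.1, h1.2, h2⟩
    refine ⟨m, step_subset_Lv hη h3, h5, fun b hb hSb h7 => ?_⟩
    obtain ⟨ζ, hζ, h8⟩ := mem_Wz.1 h7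
    have h9 : ζ = η := h8.new.uniq (hξ.mem hζ) (hξ.mem hη) ⟨h3, h4⟩
    subst h9
    rcases h8.2.2 with h10 | ⟨h10, h11, h12⟩
    · obtain ⟨τ, hτ, h13⟩ := exists_new (hξ.mem hζ) h10
      exact hmin τ (hξ.mem_trans hτ hζ) ⟨b, h13, hSb⟩ hτ
    · exact h6 b hSb h11 h10 h12

/-! ### Sequences of levels -/

/-- `f` is an initial segment of the hierarchy of well-ordered levels. -/
def SqW (A f : ZFSet.{0}) : Prop :=
  ∀ p ∈ f, ∃ ξ Q, p = pair ξ Q ∧ ∃ X R, Q = pair X R ∧ ξ.IsOrdinal ∧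
    (∀ η ∈ ξ, ∃ q ∈ f, ∃ η' Q', q = pair η' Q' ∧ η' = η) ∧
    (∀ y ∈ X, ∃ q ∈ f, ∃ η Q', q = pair η Q' ∧ ∃ Y S, Q' = pair Y S ∧ η ∈ ξ ∧ y ∈ step A Y) ∧
    (∀ q ∈ f, ∃ η Q', q = pair η Q' ∧ ∃ Y S, Q' = pair Y S ∧ (η ∈ ξ → step A Y ⊆ X)) ∧
    (∀ t ∈ R, ∃ y y', t = pair y y' ∧ ∃ q ∈ f, ∃ η Q', q = pair η Q' ∧ ∃ Y S, Q' = pair Y S ∧
      η ∈ ξ ∧ NO A Y S y y') ∧
    ∀ q ∈ f, ∃ η Q', q = pair η Q' ∧ ∃ Y S, Q' = pair Y S ∧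
      (η ∈ ξ → ∀ y ∈ X, ∀ y' ∈ X, NO A Y S y y' → pair y y' ∈ R)

theorem SqW.eq {A f : ZFSet.{0}} (h : SqW A f) : ∀ ξ X R, pair ξ (pair X R) ∈ f →
    X = Lv A ξ ∧ R = Wz A ξ := by
  intro ξ
  induction ξ using ZFSet.inductionOn with
  | _ ξ ih =>
  intro X R hX
  obtain ⟨ξ', Q, e1, X', R', e2, h0, h2, h3, h4, h5, h6⟩ := h _ hX
  obtain ⟨rfl, e3⟩ := ZFSet.pair_inj.1 e1
  rw [e2] at e3
  obtain ⟨rfl, rfl⟩ := ZFSet.pair_inj.1 e3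
  have hex : ∀ η ∈ ξ, pair η (pair (Lv A η) (Wz A η)) ∈ f := by
    intro η hη
    obtain ⟨q, hq, η', Q', rfl, rfl⟩ := h2 η hη
    obtain ⟨η'', Q'', h7, Y, S, h8, -⟩ := h4 _ hq
    obtain ⟨rfl, rfl⟩ := ZFSet.pair_inj.1 h7
    subst h8
    obtain ⟨h9, h10⟩ := ih _ hη Y S hq
    rwa [h9, h10] at hq
  have hXL : X = Lv A ξ := by
    ext y
    rw [mem_Lv]
    constructor
    · intro hy
      obtain ⟨q, hq, η, Q', rfl, Y, S, rfl, h7, h8⟩ := h3 y hy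
      rw [(ih η h7 Y S hq).1] at h8
      exact ⟨η, h7, h8⟩
    · rintro ⟨η, h7, h8⟩
      obtain ⟨η', Q', h9, Y, S, h10, h11⟩ := h4 _ (hex η h7)
      obtain ⟨rfl, rfl⟩ := ZFSet.pair_inj.1 h9
      obtain ⟨rfl, rfl⟩ := ZFSet.pair_inj.1 h10
      exact h11 h7 h8
  refine ⟨hXL, ?_⟩
  ext t
  constructor
  · intro ht
    obtain ⟨y, y', rfl, q, hq, η, Q', rfl, Y, S, rfl, h7, h8⟩ := h5 t ht
    obtain ⟨h9, h10⟩ := ih η h7 Y S hq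
    rw [h9, h10] at h8
    exact mem_Wz.2 ⟨η, h7, h8⟩
  · intro ht
    obtain ⟨y, hy, y', hy', rfl⟩ := Wz_form ht
    obtain ⟨η, h7, h8⟩ := mem_Wz.1 ht
    obtain ⟨η', Q', h9, Y, S, h10, h11⟩ := h6 _ (hex η h7)
    obtain ⟨rfl, rfl⟩ := ZFSet.pair_inj.1 h9
    obtain ⟨rfl, rfl⟩ := ZFSet.pair_inj.1 h10
    exact h11 h7 y (hXL ▸ hy) y' (hXL ▸ hy') h8

theorem SqW.form {A f p : ZFSet.{0}} (h : SqW A f) (hp : p ∈ f) :
    ∃ ξ, ξ.IsOrdinal ∧ p = pair ξ (pair (Lv A ξ) (Wz A ξ)) := by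
  obtain ⟨ξ, Q, rfl, X, R, rfl, h0, -⟩ := h p hp
  obtain ⟨h1, h2⟩ := h.eq ξ X R hp
  exact ⟨ξ, h0, by rw [h1, h2]⟩

theorem SqW.down {A f ξ η : ZFSet.{0}} (h : SqW A f)
    (hp : pair ξ (pair (Lv A ξ) (Wz A ξ)) ∈ f) (hη : η ∈ ξ) :
    pair η (pair (Lv A η) (Wz A η)) ∈ f := by
  obtain ⟨ξ', Q, h1, X, R, h2, h0, h3, -⟩ := h _ hp
  obtain ⟨rfl, -⟩ := ZFSet.pair_inj.1 h1
  obtain ⟨q, hq, η', Q', rfl, rfl⟩ := h3 η hη
  obtain ⟨ζ, -, h4⟩ := h.form hq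
  obtain ⟨rfl, rfl⟩ := ZFSet.pair_inj.1 h4
  exact hq

/-- The sequence of the levels below `δ`. -/
noncomputable def lvs (A δ : ZFSet.{0}) : ZFSet.{0} := gr (fun ξ => pair (Lv A ξ) (Wz A ξ)) δ

theorem mem_lvs {A δ p : ZFSet.{0}} :
    p ∈ lvs A δ ↔ ∃ ξ ∈ δ, p = pair ξ (pair (Lv A ξ) (Wz A ξ)) := mem_gr

theorem sqW_lvs {A δ : ZFSet.{0}} (hδ : δ.IsOrdinal) : SqW A (lvs A δ) := by
  intro p hp
  obtain ⟨ξ, hξ, rfl⟩ := mem_lvs.1 hp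
  refine ⟨ξ, _, rfl, _, _, rfl, hδ.mem hξ, fun η hη => ?_, fun y hy => ?_, fun q hq => ?_,
    fun t ht => ?_, fun q hq => ?_⟩
  · exact ⟨_, mem_lvs.2 ⟨η, hδ.mem_trans hη hξ, rfl⟩, η, _, rfl, rfl⟩
  · obtain ⟨η, hη, h⟩ := mem_Lv.1 hy
    exact ⟨_, mem_lvs.2 ⟨η, hδ.mem_trans hη hξ, rfl⟩, η, _, rfl, _, _, rfl, hη, h⟩
  · obtain ⟨η, hη, rfl⟩ := mem_lvs.1 hq
    exact ⟨η, _, rfl, _, _, rfl, fun h => step_subset_Lv h⟩
  · obtain ⟨y, -, y', -, rfl⟩ := Wz_form ht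
    obtain ⟨η, hη, h⟩ := mem_Wz.1 ht
    exact ⟨y, y', rfl, _, mem_lvs.2 ⟨η, hδ.mem_trans hη hξ, rfl⟩, η, _, rfl, _, _, rfl, hη, h⟩
  · obtain ⟨η, hη, rfl⟩ := mem_lvs.1 hq
    exact ⟨η, _, rfl, _, _, rfl, fun h y _ y' _ h1 => mem_Wz.2 ⟨η, h, h1⟩⟩

/-! ### The formula -/

/-- `y` is a function from `κ` to `κ`. -/
def Fn (y κ : ZFSet.{0}) : Prop :=
  (∀ p ∈ y, ∃ a b, p = pair a b ∧ a ∈ κ ∧ b ∈ κ) ∧
    ∀ a ∈ κ, ∃ b ∈ κ, pair a b ∈ y ∧ ∀ c ∈ κ, pair a c ∈ y → c = b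

/-- `x` does not dominate `y`. -/
def ND (x y κ : ZFSet.{0}) : Prop :=
  ∀ a ∈ κ, ∃ b ∈ κ, (a ∈ b ∨ a = b) ∧ ∃ c ∈ κ, ∃ d ∈ κ, pair b c ∈ x ∧ pair b d ∈ y ∧ ¬ d ∈ c

/-- `X` contains a function that `x` does not dominate. -/
def Bad (x κ X : ZFSet.{0}) : Prop := ∃ y ∈ X, Fn y κ ∧ ND x y κ

/-- `e` is an injection of `θ` into `κ`. -/
def IO (e θ κ : ZFSet.{0}) : Prop :=
  (∀ u ∈ θ, ∃ i ∈ κ, pair u i ∈ e) ∧
  (∀ u ∈ θ, ∀ i ∈ κ, ∀ j ∈ κ, pair u i ∈ e → pair u j ∈ e → i = j) ∧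
  ∀ u ∈ θ, ∀ u' ∈ θ, ∀ i ∈ κ, pair u i ∈ e → pair u' i ∈ e → u = u'

/-- The common part of the definitions: `f` is a sequence of levels, `θ` is the least level that
contains a function that `x` does not dominate, and `e` is the least injection of `θ` into `κ`. -/
def Core (f x A κ θ e : ZFSet.{0}) : Prop :=
  SqW A f ∧ (∃ p ∈ f, ∃ θ' Q, p = pair θ' Q ∧ θ' = θ ∧ ∃ X S, Q = pair X S ∧ Bad x κ X) ∧
  (∀ q ∈ f, ∃ η Q, q = pair η Q ∧ ∃ Y S, Q = pair Y S ∧ (η ∈ θ → ¬ Bad x κ Y)) ∧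
  ∃ p ∈ f, ∃ ζ Q, p = pair ζ Q ∧ ∃ Z U, Q = pair Z U ∧ e ∈ Z ∧ IO e θ κ ∧
    ∀ e' ∈ Z, IO e' θ κ → ¬ pair e' e ∈ U

/-- The formula that defines the sets of the Ulam matrix. -/
def Fp (f x A κ β i : ZFSet.{0}) : Prop :=
  ∃ p ∈ f, ∃ θ Q, p = pair θ Q ∧ ∃ q ∈ f, ∃ ζ Q', q = pair ζ Q' ∧ ∃ Z U, Q' = pair Z U ∧
    ∃ e ∈ Z, Core f x A κ θ e ∧ (β ∈ θ ∧ pair β i ∈ e)

/-- The formula that defines the complements of the sets of the Ulam matrix. -/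
def Fm (f x A κ β i : ZFSet.{0}) : Prop :=
  ∃ p ∈ f, ∃ θ Q, p = pair θ Q ∧ ∃ q ∈ f, ∃ ζ Q', q = pair ζ Q' ∧ ∃ Z U, Q' = pair Z U ∧
    ∃ e ∈ Z, Core f x A κ θ e ∧ ¬ (β ∈ θ ∧ pair β i ∈ e)

theorem d0_SqW : D0 fun v : Fin 2 → ZFSet.{0} => SqW (v 0) (v 1) := by
  unfold SqW
  (repeat' first
      | assumption
      | exact D0v.proj _
      | apply d0_NO | apply d0_memStep | apply d0_stepSub
      | apply D0.pairMem | apply D0.and | apply D0.expair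
      | apply D0.bex | apply D0.ball | apply D0.imp
      | apply D0.eq | apply D0.mem | apply D0.isOrdinal)

theorem d0_SqW' {n : ℕ} {A f : (Fin n → ZFSet.{0}) → ZFSet.{0}} (h1 : D0v A) (h2 : D0v f) :
    D0 fun v => SqW (A v) (f v) := by
  obtain ⟨i1, h1⟩ := h1
  obtain ⟨i2, h2⟩ := h2
  refine (d0_SqW.comp ![i1, i2]).congr fun v => ?_
  rw [h1, h2]
  rfl

theorem d0_Bad : D0 fun v : Fin 3 → ZFSet.{0} => Bad (v 0) (v 1) (v 2) := by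
  unfold Bad Fn ND
  (repeat' first
      | assumption
      | exact D0v.proj _
      | apply D0.pairMem | apply D0.not | apply D0.and | apply D0.or | apply D0.expair
      | apply D0.bex | apply D0.ball | apply D0.imp
      | apply D0.eq | apply D0.mem)

theorem d0_Bad' {n : ℕ} {x κ X : (Fin n → ZFSet.{0}) → ZFSet.{0}} (h1 : D0v x) (h2 : D0v κ)
    (h3 : D0v X) : D0 fun v => Bad (x v) (κ v) (X v) := by
  obtain ⟨i1, h1⟩ := h1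
  obtain ⟨i2, h2⟩ := h2
  obtain ⟨i3, h3⟩ := h3
  refine (d0_Bad.comp ![i1, i2, i3]).congr fun v => ?_
  rw [h1, h2, h3]
  rfl

theorem d0_IO : D0 fun v : Fin 3 → ZFSet.{0} => IO (v 0) (v 1) (v 2) := by
  unfold IO
  (repeat' first
      | assumption
      | exact D0v.proj _
      | apply D0.pairMem | apply D0.and
      | apply D0.bex | apply D0.ball | apply D0.imp
      | apply D0.eq | apply D0.mem)

theorem d0_IO' {n : ℕ} {x κ X : (Fin n → ZFSet.{0}) → ZFSet.{0}} (h1 : D0v x) (h2 : D0v κ)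
    (h3 : D0v X) : D0 fun v => IO (x v) (κ v) (X v) := by
  obtain ⟨i1, h1⟩ := h1
  obtain ⟨i2, h2⟩ := h2
  obtain ⟨i3, h3⟩ := h3
  refine (d0_IO.comp ![i1, i2, i3]).congr fun v => ?_
  rw [h1, h2, h3]
  rfl

theorem d0_Core : D0 fun v : Fin 6 → ZFSet.{0} => Core (v 0) (v 1) (v 2) (v 3) (v 4) (v 5) := by
  unfold Core
  (repeat' first
      | assumption
      | exact D0v.proj _
      | apply d0_SqW' | apply d0_Bad' | apply d0_IO'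
      | apply D0.pairMem | apply D0.not | apply D0.and | apply D0.expair
      | apply D0.bex | apply D0.ball | apply D0.imp
      | apply D0.eq | apply D0.mem)

theorem d0_Core' {n : ℕ} {f x A κ θ e : (Fin n → ZFSet.{0}) → ZFSet.{0}} (h1 : D0v f)
    (h2 : D0v x) (h3 : D0v A) (h4 : D0v κ) (h5 : D0v θ) (h6 : D0v e) :
    D0 fun v => Core (f v) (x v) (A v) (κ v) (θ v) (e v) := by
  obtain ⟨i1, h1⟩ := h1
  obtain ⟨i2, h2⟩ := h2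
  obtain ⟨i3, h3⟩ := h3
  obtain ⟨i4, h4⟩ := h4
  obtain ⟨i5, h5⟩ := h5
  obtain ⟨i6, h6⟩ := h6
  refine (d0_Core.comp ![i1, i2, i3, i4, i5, i6]).congr fun v => ?_
  rw [h1, h2, h3, h4, h5, h6]
  rfl

theorem d0_Fp : D0 fun v : Fin 6 → ZFSet.{0} => Fp (v 0) (v 1) (v 2) (v 3) (v 4) (v 5) := by
  unfold Fp
  (repeat' first
      | assumption
      | exact D0v.proj _
      | apply d0_Core'
      | apply D0.pairMem | apply D0.not | apply D0.and | apply D0.or | apply D0.expair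
      | apply D0.bex | apply D0.ball | apply D0.imp
      | apply D0.eq | apply D0.mem | apply D0.isOrdinal)

theorem d0_Fm : D0 fun v : Fin 6 → ZFSet.{0} => Fm (v 0) (v 1) (v 2) (v 3) (v 4) (v 5) := by
  unfold Fm
  (repeat' first
      | assumption
      | exact D0v.proj _
      | apply d0_Core'
      | apply D0.pairMem | apply D0.not | apply D0.and | apply D0.or | apply D0.expair
      | apply D0.bex | apply D0.ball | apply D0.imp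
      | apply D0.eq | apply D0.mem | apply D0.isOrdinal)

/-! ### The meaning of the formulas -/

/-- `θ` is the least level that contains a function that `x` does not dominate, and `e` is the
least injection of `θ` into `κ`. -/
def Dat (A κ x θ e : ZFSet.{0}) : Prop :=
  θ.IsOrdinal ∧ Bad x κ (Lv A θ) ∧ (∀ η ∈ θ, ¬ Bad x κ (Lv A η)) ∧
    ∃ ζ : ZFSet.{0}, ζ.IsOrdinal ∧ e ∈ Lv A ζ ∧ IO e θ κ ∧
      ∀ e' ∈ Lv A ζ, IO e' θ κ → ¬ pair e' e ∈ Wz A ζ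

theorem Dat.uniq {A κ x θ e θ' e' : ZFSet.{0}} (h : Dat A κ x θ e) (h' : Dat A κ x θ' e') :
    θ = θ' ∧ e = e' := by
  obtain ⟨h1, h2, h3, ζ, h4, h5, h6, h7⟩ := h
  obtain ⟨h1', h2', h3', ζ', h4', h5', h6', h7'⟩ := h'
  have hθ : θ = θ' := by
    rcases h1.mem_trichotomous h1' with h | h | h
    · exact absurd h2 (h3' θ h)
    · exact h
    · exact absurd h2' (h3 θ' h)
  subst hθ
  refine ⟨rfl, ?_⟩
  have key : ∀ {ζ ζ' e e' : ZFSet.{0}}, ζ.IsOrdinal → ζ'.IsOrdinal → ζ ⊆ ζ' → e ∈ Lv A ζ →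
      IO e θ κ → (∀ e' ∈ Lv A ζ, IO e' θ κ → ¬ pair e' e ∈ Wz A ζ) → e' ∈ Lv A ζ' →
      IO e' θ κ → (∀ e ∈ Lv A ζ', IO e θ κ → ¬ pair e e' ∈ Wz A ζ') → e = e' := by
    intro ζ ζ' e e' h4 h4' hs h5 h6 h7 h5' h6' h7'
    rcases (wOn_Wz A h4').tri e (Lv_mono hs h5) e' h5' with h | h | h
    · exact absurd h (h7' e (Lv_mono hs h5) h6)
    · exact h
    · rw [Wz_restrict h4' h4 hs h5] at h
      obtain ⟨y, hy, y', hy', h8⟩ := Wz_form h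
      obtain ⟨rfl, rfl⟩ := ZFSet.pair_inj.1 h8
      exact absurd h (h7 _ hy h6')
  rcases h4.mem_or_subset h4' with h | h
  · exact key h4 h4' (h4'.subset_of_mem h) h5 h6 h7 h5' h6' h7'
  · exact (key h4' h4 h h5' h6' h7' h5 h6 h7).symm

theorem Core.dat {f x A κ θ e : ZFSet.{0}} (h : Core f x A κ θ e) : Dat A κ x θ e := by
  obtain ⟨h1, ⟨p, hp, θ', Q, rfl, rfl, X, S, rfl, h2⟩, h3, q, hq, ζ, Q', rfl, Z, U, rfl, h4, h5,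
    h6⟩ := h
  obtain ⟨θ', hθ, h7⟩ := h1.form hp
  obtain ⟨rfl, h7⟩ := ZFSet.pair_inj.1 h7
  obtain ⟨rfl, rfl⟩ := ZFSet.pair_inj.1 h7
  obtain ⟨ζ', hζ, h7⟩ := h1.form hq
  obtain ⟨rfl, h7⟩ := ZFSet.pair_inj.1 h7
  obtain ⟨rfl, rfl⟩ := ZFSet.pair_inj.1 h7
  refine ⟨hθ, h2, fun η hη => ?_, _, hζ, h4, h5, h6⟩
  obtain ⟨η', Q', h8, Y, S, h9, h10⟩ := h3 _ (h1.down hp hη)
  obtain ⟨rfl, rfl⟩ := ZFSet.pair_inj.1 h8
  obtain ⟨rfl, rfl⟩ := ZFSet.pair_inj.1 h9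
  exact h10 hη

theorem core_lvs {x A κ θ e ζ δ : ZFSet.{0}} (hδ : δ.IsOrdinal) (hθ : θ ∈ δ) (hζ : ζ ∈ δ)
    (h2 : Bad x κ (Lv A θ)) (h3 : ∀ η ∈ θ, ¬ Bad x κ (Lv A η)) (h4 : e ∈ Lv A ζ)
    (h5 : IO e θ κ) (h6 : ∀ e' ∈ Lv A ζ, IO e' θ κ → ¬ pair e' e ∈ Wz A ζ) :
    Core (lvs A δ) x A κ θ e := by
  refine ⟨sqW_lvs hδ, ⟨_, mem_lvs.2 ⟨θ, hθ, rfl⟩, θ, _, rfl, rfl, _, _, rfl, h2⟩,
    fun q hq => ?_, _, mem_lvs.2 ⟨ζ, hζ, rfl⟩, ζ, _, rfl, _, _, rfl, h4, h5, h6⟩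
  obtain ⟨η, -, rfl⟩ := mem_lvs.1 hq
  exact ⟨η, _, rfl, _, _, rfl, h3 η⟩

theorem Fp.dat {f x A κ β i : ZFSet.{0}} (h : Fp f x A κ β i) :
    ∃ θ e, Dat A κ x θ e ∧ (β ∈ θ ∧ pair β i ∈ e) := by
  obtain ⟨p, -, θ, Q, -, q, -, ζ, Q', -, Z, U, -, e, -, h1, h2⟩ := h
  exact ⟨θ, e, h1.dat, h2⟩

theorem Fm.dat {f x A κ β i : ZFSet.{0}} (h : Fm f x A κ β i) :
    ∃ θ e, Dat A κ x θ e ∧ ¬ (β ∈ θ ∧ pair β i ∈ e) := by
  obtain ⟨p, -, θ, Q, -, q, -, ζ, Q', -, Z, U, -, e, -, h1, h2⟩ := h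
  exact ⟨θ, e, h1.dat, h2⟩

theorem Core.fp {A δ x κ θ e ζ β i : ZFSet.{0}} (h : Core (lvs A δ) x A κ θ e) (hθ : θ ∈ δ)
    (hζ : ζ ∈ δ) (he : e ∈ Lv A ζ) (h' : β ∈ θ ∧ pair β i ∈ e) : Fp (lvs A δ) x A κ β i :=
  ⟨_, mem_lvs.2 ⟨θ, hθ, rfl⟩, θ, _, rfl, _, mem_lvs.2 ⟨ζ, hζ, rfl⟩, ζ, _, rfl, _, _, rfl, e, he,
    h, h'⟩

theorem Core.fm {A δ x κ θ e ζ β i : ZFSet.{0}} (h : Core (lvs A δ) x A κ θ e) (hθ : θ ∈ δ)
    (hζ : ζ ∈ δ) (he : e ∈ Lv A ζ) (h' : ¬ (β ∈ θ ∧ pair β i ∈ e)) : Fm (lvs A δ) x A κ β i :=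
  ⟨_, mem_lvs.2 ⟨θ, hθ, rfl⟩, θ, _, rfl, _, mem_lvs.2 ⟨ζ, hζ, rfl⟩, ζ, _, rfl, _, _, rfl, e, he,
    h, h'⟩

end Pool.Agent.H635.LM
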