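import Pool.Agent.H635.LM.Defs

/-!
# Laver trees: intersections, the Baire category theorem and an Ulam matrix argument
-/

set_option autoImplicit false

namespace Pool.Agent.H635.LM

open Set Cardinal

/-- The order type of `K` is an uncountable regular cardinal `κ` with `κ ^< κ = κ`. -/
structure Good (K : Type) [LinearOrder K] : Prop where
  unc : ℵ₀ < #K
  ini : ∀ a : K, #(Iio a) < #K
  reg : (#K).IsRegular
  pow : #K ^< #K = #K

section

variable {K : Type} [LinearOrder K] [WellFoundedLT K] [SuccOrder K] [NoMaxOrder K]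

omit [WellFoundedLT K] [SuccOrder K] [NoMaxOrder K] in
theorem res_eq_iff {x y : K → K} {a b : K} :
    res x a = res y b ↔ a = b ∧ ∀ c < a, x c = y c := by
  constructor
  · intro h
    have h1 : a = b := congrArg Node.len h
    subst h1
    refine ⟨rfl, fun c hc => ?_⟩
    have h2 : (fun b : Iio a => x b) = fun b : Iio a => y b := by
      simpa [res] using h
    exact congrFun h2 ⟨c, hc⟩
  · rintro ⟨rfl, h⟩
    have h2 : (fun b : Iio a => x b) = fun b : Iio a => y b := by
      funext c
      exact h c c.2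
    simp only [res, h2]

omit [WellFoundedLT K] [SuccOrder K] [NoMaxOrder K] in
theorem res_congr {x y : K → K} {a : K} (h : ∀ c < a, x c = y c) : res x a = res y a :=
  res_eq_iff.2 ⟨rfl, h⟩

omit [WellFoundedLT K] [SuccOrder K] [NoMaxOrder K] in
theorem exists_res (K0 : Nonempty K) (s : Node K) : ∃ x a, s = res x a := by
  classical
  obtain ⟨a, v⟩ := s
  obtain ⟨k⟩ := K0
  refine ⟨fun b => if h : b < a then v ⟨b, h⟩ else k, a, ?_⟩
  have h2 : v = fun b : Iio a => (fun b => if h : b < a then v ⟨b, h⟩ else k) b.1 := by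
    funext b
    have hb : b.1 < a := b.2
    simp [hb]
  simp only [res]
  exact congrArg (Node.mk a) h2

omit [WellFoundedLT K] in
theorem app_congr {x y : K → K} {a c : K} (h : ∀ d < a, x d = y d) : app x a c = app y a c := by
  classical
  unfold app
  apply res_congr
  intro d hd
  rcases (Order.lt_succ_iff.1 hd).eq_or_lt with rfl | hd
  · simp
  · rw [Function.update_of_ne hd.ne, Function.update_of_ne hd.ne, h d hd]

omit [SuccOrder K] [WellFoundedLT K] [NoMaxOrder K] in
theorem Good.bdd (hK : Good K) {ι : Type} (hι : #ι < #K) (f : ι → K) : ∃ b, ∀ i, f i < b := by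
  by_contra h
  push Not at h
  have h1 : (⋃ i, Iic (f i)) = Set.univ :=
    eq_univ_of_forall fun b => by
      obtain ⟨i, hi⟩ := h b
      exact mem_iUnion.2 ⟨i, hi⟩
  have h2 : #(⋃ i, Iic (f i)) < #K := by
    rw [card_iUnion_lt_iff_forall_of_isRegular hK.reg hι]
    intro i
    have h3 : Iic (f i) = insert (f i) (Iio (f i)) := by
      ext b
      simp [le_iff_eq_or_lt]
    rw [h3]
    refine (mk_insert_le).trans_lt ?_
    exact add_lt_of_lt hK.unc.le (hK.ini _) (one_lt_aleph0.trans hK.unc)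
  rw [h1, mk_univ] at h2
  exact lt_irrefl _ h2

/-! ### Clubs -/

omit [SuccOrder K] in
theorem IsClub.iInter (hK : Good K) {ι : Type} (hι : #ι < #K) (C : ι → Set K)
    (h : ∀ i, IsClub (C i)) : IsClub (⋂ i, C i) := by
  have hF : ∀ b, ∃ b', b < b' ∧ ∀ i, ∃ c ∈ C i, b < c ∧ c < b' := by
    intro b
    choose g hg1 hg2 using fun i => (h i).1 b
    obtain ⟨b', hb'⟩ := hK.bdd hι g
    obtain ⟨b'', hb''⟩ := exists_gt (max b b')
    exact ⟨b'', (le_max_left _ _).trans_lt hb'', fun i =>
      ⟨g i, hg1 i, hg2 i, (hb' i).trans_le ((le_max_right _ _).trans hb''.le)⟩⟩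
  choose F hF1 hF2 using hF
  constructor
  · intro a
    let s : ℕ → K := fun n => F^[n] a
    have hs : ∀ n, s (n + 1) = F (s n) := fun n => Function.iterate_succ_apply' F n a
    obtain ⟨b, hb⟩ := hK.bdd (ι := ℕ) (by simpa using hK.unc) s
    have hne : {b | ∀ n, s n < b}.Nonempty := ⟨b, hb⟩
    set d := wellFounded_lt.min _ hne with hd
    have hd1 : ∀ n, s n < d := wellFounded_lt.min_mem _ hne
    have hd2 : ∀ b < d, ∃ n, b ≤ s n := by
      intro b hb
      have h1 := wellFounded_lt.not_lt_min {b | ∀ n, s n < b} (x := b)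
      by_contra h2
      push Not at h2
      exact h1 h2 hb
    refine ⟨d, ?_, hd1 0⟩
    rw [mem_iInter]
    intro i
    refine (h i).2 d ⟨_, hd1 0⟩ fun b hb => ?_
    obtain ⟨n, hn⟩ := hd2 b hb
    obtain ⟨c, hc, hc1, hc2⟩ := hF2 (s n) i
    exact ⟨c, hc, hn.trans_lt hc1, hc2.trans (by rw [← hs]; exact hd1 _)⟩
  · intro d hd h1
    rw [mem_iInter]
    intro i
    refine (h i).2 d hd fun b hb => ?_
    obtain ⟨c, hc, h2⟩ := h1 b hb
    exact ⟨c, mem_iInter.1 hc i, h2⟩

omit [SuccOrder K] in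
theorem IsClub.inter (hK : Good K) {C D : Set K} (hC : IsClub C) (hD : IsClub D) :
    IsClub (C ∩ D) := by
  have h := IsClub.iInter hK (ι := Bool) (by
    have : #Bool < ℵ₀ := lt_aleph0_of_finite _
    exact this.trans hK.unc) (fun b => cond b C D) (by rintro (_ | _) <;> assumption)
  have h1 : (⋂ b : Bool, cond b C D) = C ∩ D := by
    ext a
    simp [and_comm]
  rwa [h1] at h

omit [SuccOrder K] [WellFoundedLT K] in
theorem isClub_Ioi (a : K) : IsClub (Ioi a) := by
  constructor
  · intro b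
    obtain ⟨c, hc⟩ := exists_gt (max a b)
    exact ⟨c, (le_max_left _ _).trans_lt hc, (le_max_right _ _).trans_lt hc⟩
  · rintro d ⟨b, hb⟩ h
    obtain ⟨c, hc, -, h1⟩ := h b hb
    exact lt_trans (mem_Ioi.1 hc) h1

/-! ### Building Laver trees -/

/-- Closed under unions of increasing sequences. -/
def Clo (T : Set (Node K)) : Prop :=
  ∀ x a, (∃ b, b < a) → (∀ b < a, ∃ c, b < c ∧ c < a) → (∀ b < a, res x b ∈ T) → res x a ∈ T

omit [WellFoundedLT K] in
theorem IsStem.laver {T : Set (Node K)} (h1 : IsTree T) (h2 : Clo T) {x : K → K} {a : K}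
    (hs : IsStem T x a) : IsLaver T := by
  classical
  refine ⟨h1, fun y b hb => ?_, h2, x, a, hs⟩
  rcases lt_or_ge b a with h | h
  · exact ⟨x, a, h, fun c hc => hs.2.1 y b hb c (hc.trans h) hc, hs.1⟩
  · obtain ⟨c, hc, -⟩ := (hs.2.2 y b h hb).1 a
    refine ⟨Function.update y b c, Order.succ b, Order.lt_succ b, fun d hd => ?_, hc⟩
    rw [Function.update_of_ne hd.ne]

theorem inter_laver (hK : Good K) {ι : Type} [Nonempty ι] (hι : #ι < #K)
    (T : ι → Set (Node K)) (x : ι → K → K) (a : ι → K) (hT : ∀ i, IsLaver (T i))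
    (hs : ∀ i, IsStem (T i) (x i) (a i)) (X : K → K) (A : K) (hX : ∀ i, res X A ∈ T i)
    (hA : ∀ i, a i ≤ A) (hc : ∀ c < A, ∃ i, c < a i) :
    IsLaver (⋂ i, T i) ∧ IsStem (⋂ i, T i) X A := by
  have h1 : IsTree (⋂ i, T i) := by
    obtain ⟨i⟩ := (inferInstance : Nonempty ι)
    constructor
    · intro y b hb
      exact (hT i).1.1 y b (mem_iInter.1 hb i)
    · intro y b c hc hb
      exact mem_iInter.2 fun i => (hT i).1.2 y b c hc (mem_iInter.1 hb i)
  have h2 : Clo (⋂ i, T i) := by
    intro y b h3 h4 h5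
    exact mem_iInter.2 fun i => (hT i).2.2.1 y b h3 h4 fun c hc => mem_iInter.1 (h5 c hc) i
  have h3 : IsStem (⋂ i, T i) X A := by
    refine ⟨mem_iInter.2 hX, fun y b hb c hc1 hc2 => ?_, fun y b hb hy => ?_⟩
    · obtain ⟨i, hi⟩ := hc c hc1
      have h4 := (hs i).2.1 y b (mem_iInter.1 hb i) c hi hc2
      have h5 := (hs i).2.1 X A (hX i) c hi hc1
      rw [← h4, ← h5]
    · have h4 : {c | app y b c ∈ ⋂ i, T i} = ⋂ i, {c | app y b c ∈ T i} := by
        ext c
        simp
      rw [h4]
      exact IsClub.iInter hK hι _ fun i => (hs i).2.2 y b ((hA i).trans hb) (mem_iInter.1 hy i)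
  exact ⟨h3.laver h1 h2, h3⟩

theorem inter2_laver (hK : Good K) {S T : Set (Node K)} (hS : IsLaver S) (hT : IsLaver T)
    {x y : K → K} {a b : K} (hs : IsStem S x a) (ht : IsStem T y b) (h : res x a = res y b) :
    IsLaver (S ∩ T) := by
  have h1 := inter_laver hK (ι := Bool) (by
    have : #Bool < ℵ₀ := lt_aleph0_of_finite _
    exact this.trans hK.unc) (fun i => cond i S T) (fun i => cond i x y) (fun i => cond i a b)
    (by rintro (_ | _) <;> assumption) (by rintro (_ | _) <;> assumption) x a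
    (by
      rintro (_ | _)
      · rw [h]
        exact ht.1
      · exact hs.1)
    (by
      rintro (_ | _)
      · exact (res_eq_iff.1 h).1.ge
      · exact le_rfl) fun c hc => ⟨true, hc⟩
  have h2 : (⋂ i : Bool, cond i S T) = S ∩ T := by
    ext s
    simp [and_comm]
  rw [h2] at h1
  exact h1.1

/-- The nodes of `T` that are comparable with `res x a`. -/
def sub (T : Set (Node K)) (x : K → K) (a : K) : Set (Node K) :=
  {s | s ∈ T ∧ ∀ y b, s = res y b → ∀ c, c < a → c < b → x c = y c}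

omit [WellFoundedLT K] [SuccOrder K] [NoMaxOrder K] in
theorem mem_sub {T : Set (Node K)} {x y : K → K} {a b : K} :
    res y b ∈ sub T x a ↔ res y b ∈ T ∧ ∀ c, c < a → c < b → x c = y c := by
  constructor
  · rintro ⟨h1, h2⟩
    exact ⟨h1, h2 y b rfl⟩
  · rintro ⟨h1, h2⟩
    refine ⟨h1, fun y' b' h3 c hc hc' => ?_⟩
    obtain ⟨rfl, h4⟩ := res_eq_iff.1 h3
    rw [h2 c hc hc', h4 c hc']

omit [WellFoundedLT K] in
theorem sub_laver {T : Set (Node K)} (hT : IsLaver T) {x0 x : K → K} {a0 a : K}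
    (hs : IsStem T x0 a0) (hx : res x a ∈ T) (ha : a0 ≤ a) :
    IsLaver (sub T x a) ∧ IsStem (sub T x a) x a := by
  classical
  have h1 : IsTree (sub T x a) := by
    constructor
    · intro y b hb
      exact hT.1.1 y b (mem_sub.1 hb).1
    · intro y b c hc hb
      obtain ⟨h2, h3⟩ := mem_sub.1 hb
      exact mem_sub.2 ⟨hT.1.2 y b c hc h2, fun d hd hd' => h3 d hd (hd'.trans_le hc)⟩
  have h2 : Clo (sub T x a) := by
    intro y b h3 h4 h5
    refine mem_sub.2 ⟨hT.2.2.1 y b h3 h4 fun c hc => (mem_sub.1 (h5 c hc)).1, ?_⟩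
    intro c hc hc'
    obtain ⟨d, h6, h7⟩ := h4 c hc'
    exact (mem_sub.1 (h5 d h7)).2 c hc h6
  have h3 : IsStem (sub T x a) x a := by
    refine ⟨mem_sub.2 ⟨hx, fun _ _ _ => rfl⟩, fun y b hb c hc1 hc2 => (mem_sub.1 hb).2 c hc1 hc2,
      fun y b hb hy => ?_⟩
    obtain ⟨h4, h5⟩ := mem_sub.1 hy
    have h6 : {c | app y b c ∈ sub T x a} = {c | app y b c ∈ T} := by
      ext c
      simp only [mem_ofPred_eq]
      unfold app
      rw [mem_sub]
      refine and_iff_left fun d hd _ => ?_
      have h7 : d < b := hd.trans_le hb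
      rw [Function.update_of_ne h7.ne]
      exact h5 d hd h7
    rw [h6]
    exact hs.2.2 y b (ha.trans hb) h4
  exact ⟨h3.laver h1 h2, h3⟩

omit [WellFoundedLT K] in
theorem stem_le {S T : Set (Node K)} (h : S ⊆ T) {x y : K → K} {a b : K} (hS : IsStem S x a)
    (hT : IsStem T y b) : b ≤ a := by
  classical
  by_contra h1
  push Not at h1
  obtain ⟨c, hc, -⟩ := (hS.2.2 x a le_rfl hS.1).1 a
  obtain ⟨c', hc', hcc⟩ := (hS.2.2 x a le_rfl hS.1).1 c
  have h2 : ∀ c, app x a c ∈ S → y a = c := by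
    intro c hc
    have h3 := hT.2.1 _ _ (h hc) a h1 (Order.lt_succ a)
    rw [h3, Function.update_self]
  have h3 := h2 c hc
  have h4 := h2 c' hc'
  rw [h3] at h4
  exact hcc.ne h4

theorem chain_inter (hK : Good K) {ι : Type} [Nonempty ι] (hι : #ι < #K)
    (T : ι → Set (Node K)) (x : ι → K → K) (a : ι → K) (hT : ∀ i, IsLaver (T i))
    (hs : ∀ i, IsStem (T i) (x i) (a i)) (hch : ∀ i j, T i ⊆ T j ∨ T j ⊆ T i) :
    ∃ X A, IsLaver (⋂ i, T i) ∧ IsStem (⋂ i, T i) X A := by
  classical
  obtain ⟨b, hb⟩ := hK.bdd hι a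
  have hne : {b | ∀ i, a i ≤ b}.Nonempty := ⟨b, fun i => (hb i).le⟩
  set A := wellFounded_lt.min _ hne with hAdef
  have hA : ∀ i, a i ≤ A := wellFounded_lt.min_mem _ hne
  have hc : ∀ c < A, ∃ i, c < a i := by
    intro c hc
    by_contra h2
    push Not at h2
    exact wellFounded_lt.not_lt_min {b | ∀ i, a i ≤ b} h2 hc
  have hco : ∀ i j c, c < a i → c < a j → x i c = x j c := by
    intro i j c h1 h2
    rcases hch i j with h | h
    · exact ((hs j).2.1 _ _ (h (hs i).1) c h2 h1).symm
    · exact (hs i).2.1 _ _ (h (hs j).1) c h1 h2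
  let X : K → K := fun c => if h : ∃ i, c < a i then x h.choose c else c
  have hX : ∀ i c, c < a i → X c = x i c := by
    intro i c h
    have h' : ∃ i, c < a i := ⟨i, h⟩
    have : X c = x h'.choose c := dif_pos h'
    rw [this]
    exact hco _ _ c h'.choose_spec h
  have h1 : ∀ j, ∀ c < A, res X c ∈ T j := by
    intro j c hcA
    obtain ⟨i, hi⟩ := hc c hcA
    rcases hch i j with h | h
    · rw [res_congr (y := x i) fun d hd => hX i d (hd.trans hi)]
      exact h ((hT i).1.2 _ _ _ hi.le (hs i).1)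
    · have h2 := stem_le h (hs j) (hs i)
      rw [res_congr (y := x j) fun d hd => hX j d (hd.trans (hi.trans_le h2))]
      exact (hT j).1.2 _ _ _ (hi.le.trans h2) (hs j).1
  have h2 : ∀ j, res X A ∈ T j := by
    intro j
    by_cases h3 : ∃ i, A = a i
    · obtain ⟨i, hi⟩ := h3
      rcases hch i j with h | h
      · rw [hi, res_congr (y := x i) fun d hd => hX i d hd]
        exact h (hs i).1
      · have h4 := stem_le h (hs j) (hs i)
        have h5 : A = a j := le_antisymm (hi ▸ h4) (hA j)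
        rw [h5, res_congr (y := x j) fun d hd => hX j d hd]
        exact (hs j).1
    · push Not at h3
      have h4 : ∀ i, a i < A := fun i => lt_of_le_of_ne (hA i) (h3 i).symm
      refine (hT j).2.2.1 X A ⟨_, h4 j⟩ (fun b hb => ?_) (h1 j)
      obtain ⟨i, hi⟩ := hc b hb
      exact ⟨a i, hi, h4 i⟩
  exact ⟨X, A, inter_laver hK hι T x a hT hs X A h2 hA hc⟩

/-! ### The Baire category theorem -/

/-- The requirements of one step of the construction. -/
def Stp (T : Set (Node K)) (N : K → Set (K → K)) (i : K) (prev : ∀ j, j < i → Set (Node K))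
    (S : Set (Node K)) : Prop :=
  IsLaver S ∧ S ⊆ T ∧ (∀ j (h : j < i), S ⊆ prev j h) ∧ br S ∩ N i = ∅ ∧
    ∀ x a, IsStem S x a → ∀ j (h : j < i), ∀ y b, IsStem (prev j h) y b → b < a

theorem baire (hK : Good K) {T : Set (Node K)} (hT : IsLaver T) (N : K → Set (K → K))
    (hN : ∀ i, Null (N i)) : ∃ x ∈ br T, ∀ i, x ∉ N i := by
  classical
  let F : ∀ i : K, (∀ j, j < i → Set (Node K)) → Set (Node K) := fun i prev =>
    if h : ∃ S, Stp T N i prev S then h.choose else ∅
  let G : K → Set (Node K) := wellFounded_lt.fix F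
  have hG : ∀ i, G i = F i fun j _ => G j := fun i => WellFounded.fix_eq _ _ _
  have key : ∀ i, Stp T N i (fun j _ => G j) (G i) := by
    intro i
    induction i using WellFoundedLT.induction with
    | _ i ih =>
    have hex : ∃ S, Stp T N i (fun j _ => G j) S := by
      let t : Option (Iio i) → Set (Node K) := fun o => o.elim T fun j => G j
      have htL : ∀ o, IsLaver (t o) := by
        rintro (_ | j)
        · exact hT
        · exact (ih j j.2).1
      choose x a hs using fun o => (htL o).2.2.2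
      have hch : ∀ o o', t o ⊆ t o' ∨ t o' ⊆ t o := by
        rintro (_ | j) (_ | j')
        · exact Or.inl subset_rfl
        · exact Or.inr (ih j' j'.2).2.1
        · exact Or.inl (ih j j.2).2.1
        · rcases lt_trichotomy j.1 j'.1 with h | h | h
          · exact Or.inr ((ih j' j'.2).2.2.1 j h)
          · have : j = j' := Subtype.ext h
            subst this
            exact Or.inl subset_rfl
          · exact Or.inl ((ih j j.2).2.2.1 j' h)
      have hι : #(Option (Iio i)) < #K := by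
        rw [mk_option]
        exact add_lt_of_lt hK.unc.le (hK.ini _) (one_lt_aleph0.trans hK.unc)
      obtain ⟨X, A, hI, hIs⟩ := chain_inter hK hι t x a htL hs hch
      obtain ⟨c, hc, -⟩ := (hIs.2.2 X A le_rfl hIs.1).1 A
      obtain ⟨hS1, hS1s⟩ := sub_laver hI hIs (x := Function.update X A c) (a := Order.succ A) hc
        (Order.le_succ A)
      obtain ⟨S, hS, hSS, hSN⟩ := hN i _ hS1
      have hSt : ∀ o, S ⊆ t o := fun o s hs => mem_iInter.1 (hSS hs).1 o
      refine ⟨S, hS, hSt none, fun j h => hSt (some ⟨j, h⟩), hSN, ?_⟩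
      intro x' a' hx' j hj y b hy
      have h1 : Order.succ A ≤ a' := stem_le hSS hx' hS1s
      have h2 : b ≤ A := stem_le (fun s hs => mem_iInter.1 hs (some ⟨j, hj⟩)) hIs hy
      exact h2.trans_lt ((Order.lt_succ A).trans_le h1)
    have h1 : G i = hex.choose := by
      rw [hG]
      exact dif_pos hex
    rw [h1]
    exact hex.choose_spec
  choose x a hs using fun i => (key i).1.2.2.2
  have hmono : StrictMono a := fun i j h => (key j).2.2.2.2 _ _ (hs j) i h _ _ (hs i)
  have hdec : ∀ i j, i ≤ j → G j ⊆ G i := by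
    intro i j h
    rcases h.eq_or_lt with rfl | h
    · exact subset_rfl
    · exact (key j).2.2.1 i h
  have hco : ∀ i j c, c < a i → c < a j → x i c = x j c := by
    intro i j c h1 h2
    rcases le_total i j with h | h
    · exact (hs i).2.1 _ _ (hdec i j h (hs j).1) c h1 h2
    · exact ((hs j).2.1 _ _ (hdec j i h (hs i).1) c h2 h1).symm
  let X : K → K := fun c => x (Order.succ c) c
  have hX : ∀ i c, c < a i → X c = x i c := fun i c h =>
    hco _ _ c ((Order.lt_succ c).trans_le (hmono.le_apply)) h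
  have hbr : ∀ i, X ∈ br (G i) := by
    intro i c
    have h1 : c ≤ a (max i c) := (le_max_right i c).trans hmono.le_apply
    rw [res_congr (y := x (max i c)) fun d hd => hX _ d (hd.trans_le h1)]
    exact hdec _ _ (le_max_left i c) ((key _).1.1.2 _ _ _ h1 (hs _).1)
  refine ⟨X, fun c => ?_, fun i hi => ?_⟩
  · exact (key c).2.1 (hbr c c)
  · have h1 : X ∈ br (G i) ∩ N i := ⟨hbr i, hi⟩
    rw [(key i).2.2.2.1] at h1
    exact h1

/-! ### Null and meager sets -/

omit [WellFoundedLT K] [NoMaxOrder K] in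
theorem Null.mono {A B : Set (K → K)} (h : A ⊆ B) (hB : Null B) : Null A := by
  intro T hT
  obtain ⟨S, h1, h2, h3⟩ := hB T hT
  refine ⟨S, h1, h2, ?_⟩
  rw [← subset_empty_iff] at h3 ⊢
  exact (inter_subset_inter_right _ h).trans h3

omit [WellFoundedLT K] [NoMaxOrder K] in
theorem Meager.mono {A B : Set (K → K)} (h : A ⊆ B) (hB : Meager B) : Meager A := by
  obtain ⟨N, h1, rfl⟩ := hB
  refine ⟨fun i => N i ∩ A, fun i => (h1 i).mono inter_subset_left, ?_⟩
  rw [← iUnion_inter]
  exact (inter_eq_right.2 h).symm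

omit [WellFoundedLT K] [NoMaxOrder K] in
theorem Null.meager [Nonempty K] {A : Set (K → K)} (h : Null A) : Meager A :=
  ⟨fun _ => A, fun _ => h, (iUnion_const A).symm⟩

omit [WellFoundedLT K] [NoMaxOrder K] in
theorem null_empty : Null (∅ : Set (K → K)) := fun T hT => ⟨T, hT, subset_rfl, by simp⟩

omit [WellFoundedLT K] [NoMaxOrder K] in
theorem meager_iUnion (hK : Good K) (A : K → Set (K → K)) (h : ∀ i, Meager (A i)) :
    Meager (⋃ i, A i) := by
  choose N hN1 hN2 using h
  have h1 : #(K × K) = #K := by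
    rw [mk_prod, lift_id]
    exact mul_eq_self hK.unc.le
  obtain ⟨e⟩ := Cardinal.eq.1 h1
  refine ⟨fun k => N (e.symm k).1 (e.symm k).2, fun k => hN1 _ _, ?_⟩
  ext x
  simp only [mem_iUnion]
  constructor
  · rintro ⟨i, hi⟩
    rw [hN2 i] at hi
    obtain ⟨j, hj⟩ := mem_iUnion.1 hi
    exact ⟨e (i, j), by simpa using hj⟩
  · rintro ⟨k, hk⟩
    refine ⟨(e.symm k).1, ?_⟩
    rw [hN2]
    exact mem_iUnion.2 ⟨_, hk⟩

omit [WellFoundedLT K] [NoMaxOrder K] in
theorem meager_iUnion' (hK : Good K) {ι : Type} (hι : #ι ≤ #K) (A : ι → Set (K → K))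
    (h : ∀ i, Meager (A i)) : Meager (⋃ i, A i) := by
  classical
  have hne : Nonempty K := by
    rw [← mk_ne_zero_iff]
    exact (aleph0_pos.trans hK.unc).ne'
  obtain ⟨e⟩ := Cardinal.le_def _ _ |>.1 hι
  have h1 : ∀ k, Meager (⋃ i, ⋃ (_ : e i = k), A i) := by
    intro k
    by_cases hk : ∃ i, e i = k
    · obtain ⟨i, hi⟩ := hk
      refine (h i).mono ?_
      refine iUnion_subset fun j => iUnion_subset fun hj => ?_
      rw [e.injective (hj.trans hi.symm)]
    · refine null_empty.meager.mono ?_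
      refine iUnion_subset fun j => iUnion_subset fun hj => ?_
      exact absurd ⟨j, hj⟩ hk
  refine (meager_iUnion hK _ h1).mono ?_
  refine iUnion_subset fun i x hx => ?_
  exact mem_iUnion.2 ⟨e i, mem_iUnion.2 ⟨i, mem_iUnion.2 ⟨rfl, hx⟩⟩⟩

omit [WellFoundedLT K] [NoMaxOrder K] in
theorem Meager.union (hK : Good K) {A B : Set (K → K)} (hA : Meager A) (hB : Meager B) :
    Meager (A ∪ B) := by
  have h := meager_iUnion' hK (ι := Bool) (by
    have : #Bool < ℵ₀ := lt_aleph0_of_finite _
    exact (this.trans hK.unc).le) (fun i => cond i A B) (by rintro (_ | _) <;> assumption)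
  refine h.mono ?_
  rintro x (hx | hx)
  · exact mem_iUnion.2 ⟨true, hx⟩
  · exact mem_iUnion.2 ⟨false, hx⟩

theorem not_meager_br (hK : Good K) {T : Set (Node K)} (hT : IsLaver T) : ¬ Meager (br T) := by
  rintro ⟨N, h1, h2⟩
  obtain ⟨x, hx, h3⟩ := baire hK hT N h1
  rw [h2] at hx
  obtain ⟨i, hi⟩ := mem_iUnion.1 hx
  exact h3 i hi

/-- The tree of all increasing sequences. -/
def full (K : Type) [LinearOrder K] : Set (Node K) :=
  {s | ∀ b c : Iio s.len, b < c → s.val b < s.val c}

omit [WellFoundedLT K] [SuccOrder K] [NoMaxOrder K] in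
theorem mem_full {x : K → K} {a : K} :
    res x a ∈ full K ↔ ∀ b c, b < c → c < a → x b < x c := by
  constructor
  · intro h b c hbc hca
    exact h ⟨b, hbc.trans hca⟩ ⟨c, hca⟩ hbc
  · intro h b c hbc
    exact h b c hbc c.2

theorem full_laver (hK : Good K) : IsLaver (full K) := by
  classical
  have hne : Nonempty K := by
    rw [← mk_ne_zero_iff]
    exact (aleph0_pos.trans hK.unc).ne'
  have hne' : (Set.univ : Set K).Nonempty := univ_nonempty
  set z := wellFounded_lt.min _ hne' with hz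
  have hz' : ∀ c, ¬ c < z := fun c => wellFounded_lt.not_lt_min Set.univ (mem_univ c)
  have h1 : IsTree (full K) := by
    constructor
    · intro x a h
      exact mem_full.1 h
    · intro x a b hb h
      exact mem_full.2 fun c d hcd hd => mem_full.1 h c d hcd (hd.trans_le hb)
  have h2 : Clo (full K) := by
    intro x a h3 h4 h5
    refine mem_full.2 fun b c hbc hca => ?_
    obtain ⟨d, hd1, hd2⟩ := h4 c hca
    exact mem_full.1 (h5 d hd2) b c hbc hd1
  have h3 : IsStem (full K) id z := by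
    refine ⟨mem_full.2 fun b c hbc hca => absurd hca (hz' c), fun y b hb c hc => absurd hc (hz' c),
      fun y b _ hy => ?_⟩
    have h4 : ∀ c, app y b c ∈ full K ↔ ∀ d < b, y d < c := by
      intro c
      unfold app
      rw [mem_full]
      constructor
      · intro h d hd
        have h5 := h d b hd (Order.lt_succ b)
        rwa [Function.update_of_ne hd.ne, Function.update_self] at h5
      · intro h d e hde he
        have hdb : d < b := hde.trans_le (Order.lt_succ_iff.1 he)
        rw [Function.update_of_ne hdb.ne]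
        rcases (Order.lt_succ_iff.1 he).eq_or_lt with rfl | heb
        · rw [Function.update_self]
          exact h d hdb
        · rw [Function.update_of_ne heb.ne]
          exact mem_full.1 hy d e hde heb
    constructor
    · intro a
      obtain ⟨c, hc⟩ := hK.bdd (hK.ini b) fun d : Iio b => y d
      obtain ⟨c', hc'⟩ := exists_gt (max a c)
      refine ⟨c', (h4 c').2 fun d hd => ?_, (le_max_left _ _).trans_lt hc'⟩
      exact (hc ⟨d, hd⟩).trans ((le_max_right _ _).trans_lt hc')
    · rintro d ⟨a, ha⟩ h5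
      refine (h4 d).2 fun e he => ?_
      obtain ⟨c, hc, -, hcd⟩ := h5 a ha
      exact ((h4 c).1 hc e he).trans hcd
  exact h3.laver h1 h2

theorem not_meager_univ (hK : Good K) : ¬ Meager (Set.univ : Set (K → K)) := fun h =>
  not_meager_br hK (full_laver hK) (h.mono (subset_univ _))

/-! ### Positive measurable sets -/

omit [WellFoundedLT K] [SuccOrder K] [NoMaxOrder K] in
theorem card_node (hK : Good K) : #(Node K) ≤ #K := by
  let f : Node K → Σ a : K, (Iio a → K) := fun s => ⟨s.len, s.val⟩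
  have hf : Function.Injective f := by
    rintro ⟨a, u⟩ ⟨b, v⟩ h
    simp only [f, Sigma.mk.injEq] at h
    obtain ⟨rfl, h⟩ := h
    rw [eq_of_heq h]
  refine (mk_le_of_injective hf).trans ?_
  rw [mk_sigma]
  have h1 : ∀ a : K, #(Iio a → K) ≤ #K := by
    intro a
    have h2 : #(Iio a → K) = #K ^ #(Iio a) := by simp
    rw [h2]
    exact (le_powerlt _ (hK.ini a)).trans hK.pow.le
  refine (sum_le_sum _ (fun _ => #K) h1).trans ?_
  rw [sum_const, lift_id]
  exact (mul_eq_self hK.unc.le).le

theorem positive (hK : Good K) {A : Set (K → K)} (hm : Meas A) (hA : ¬ Meager A) :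
    ∃ S, IsLaver S ∧ Meager (br S \ A) := by
  classical
  have hne : Nonempty K := by
    rw [← mk_ne_zero_iff]
    exact (aleph0_pos.trans hK.unc).ne'
  by_contra hcon
  push Not at hcon
  let Q : Node K → Set (Node K) → Prop := fun s S =>
    IsLaver S ∧ (∃ x a, s = res x a ∧ IsStem S x a) ∧ Meager (br S ∩ A)
  let U : Node K → Set (K → K) := fun s => if h : ∃ S, Q s S then br h.choose else ∅
  have hU : ∀ s, Meager (U s ∩ A) := by
    intro s
    by_cases h : ∃ S, Q s S
    · have h1 : U s = br h.choose := dif_pos h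
      rw [h1]
      exact h.choose_spec.2.2
    · have h1 : U s = ∅ := dif_neg h
      rw [h1, empty_inter]
      exact null_empty.meager
  have h1 : Meager (⋃ s, U s ∩ A) := meager_iUnion' hK (card_node hK) _ hU
  have h2 : Null (A \ ⋃ s, U s) := by
    intro T hT
    obtain ⟨S, hS, hST, h3 | h3⟩ := hm T hT
    · exact absurd h3 (hcon S hS)
    · obtain ⟨x, a, hs⟩ := hS.2.2.2
      have h : ∃ S, Q (res x a) S := ⟨S, hS, ⟨x, a, rfl, hs⟩, h3⟩
      obtain ⟨h4, ⟨x', a', h5, h6⟩, -⟩ := h.choose_spec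
      have h7 : U (res x a) = br h.choose := dif_pos h
      refine ⟨S ∩ h.choose, inter2_laver hK hS h4 hs h6 h5, inter_subset_left.trans hST, ?_⟩
      rw [← subset_empty_iff]
      rintro y ⟨hy, -, hy'⟩
      apply hy'
      refine mem_iUnion.2 ⟨res x a, ?_⟩
      rw [h7]
      exact fun c => (hy c).2
  apply hA
  refine (h2.meager.union hK h1).mono ?_
  intro x hx
  by_cases h3 : x ∈ ⋃ s, U s
  · obtain ⟨s, hs⟩ := mem_iUnion.1 h3
    exact Or.inr (mem_iUnion.2 ⟨s, hs, hx⟩)
  · exact Or.inl ⟨hx, h3⟩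

/-- The Ulam matrix argument. -/
theorem ulam (hK : Good K) {Y : Type} (hY : #K < #Y) (B : Y → K → Set (K → K))
    (hm : ∀ y i, Meas (B y i)) (hcov : ∀ y, Null (⋃ i, B y i)ᶜ)
    (hdis : ∀ y y' i, y ≠ y' → B y i ∩ B y' i = ∅) : False := by
  have hne : Nonempty K := by
    rw [← mk_ne_zero_iff]
    exact (aleph0_pos.trans hK.unc).ne'
  have h1 : ∀ y, ∃ i, ¬ Meager (B y i) := by
    intro y
    by_contra h
    push Not at h
    apply not_meager_univ hK
    have h2 := (hcov y).meager.union hK (meager_iUnion hK _ h)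
    rwa [compl_union_self] at h2
  choose i hi using h1
  choose S hS hSm using fun y => positive hK (hm y (i y)) (hi y)
  choose x a hs using fun y => (hS y).2.2.2
  let f : Y → K × Node K := fun y => (i y, res (x y) (a y))
  have hf : ¬ Function.Injective f := by
    intro hf
    have h2 := mk_le_of_injective hf
    have h3 : #(K × Node K) ≤ #K := by
      rw [mk_prod, lift_id, lift_id]
      exact (mul_le_mul_right (card_node hK) _).trans (mul_eq_self hK.unc.le).le
    exact absurd (h2.trans h3) (not_le.2 hY)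
  unfold Function.Injective at hf
  push Not at hf
  obtain ⟨y, y', h2, h3⟩ := hf
  obtain ⟨h4, h5⟩ := Prod.mk.inj h2
  have h6 := inter2_laver hK (hS y) (hS y') (hs y) (hs y') h5
  apply not_meager_br hK h6
  refine ((hSm y).union hK (hSm y')).mono ?_
  intro z hz
  by_cases h7 : z ∈ B y (i y)
  · right
    refine ⟨fun c => (hz c).2, fun h8 => ?_⟩
    have h9 : z ∈ B y (i y') ∩ B y' (i y') := ⟨h4 ▸ h7, h8⟩
    rw [hdis y y' _ h3] at h9
    exact h9
  · exact Or.inl ⟨fun c => (hz c).1, h7⟩

/-! ### The set of the functions that do not dominate a small family is null -/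

theorem null_nondom (hK : Good K) (F : K → K → K) :
    Null {x : K → K | ∃ j, ¬ ∃ a, ∀ b, a ≤ b → F j b < x b} := by
  classical
  have hg : ∀ b, ∃ c, ∀ j ≤ b, F j b < c := by
    intro b
    obtain ⟨c, hc⟩ := hK.bdd (ι := Iio (Order.succ b)) (hK.ini _) fun j => F j b
    exact ⟨c, fun j hj => hc ⟨j, Order.lt_succ_iff.2 hj⟩⟩
  choose g hg using hg
  intro T hT
  obtain ⟨x0, a0, hs⟩ := hT.2.2.2
  let S : Set (Node K) := {s | s ∈ T ∧ ∀ y b, s = res y b → ∀ c, a0 ≤ c → c < b → g c < y c}
  have hmem : ∀ y b, res y b ∈ S ↔ res y b ∈ T ∧ ∀ c, a0 ≤ c → c < b → g c < y c := by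
    intro y b
    constructor
    · rintro ⟨h1, h2⟩
      exact ⟨h1, h2 y b rfl⟩
    · rintro ⟨h1, h2⟩
      refine ⟨h1, fun y' b' h3 c hc hc' => ?_⟩
      obtain ⟨rfl, h4⟩ := res_eq_iff.1 h3
      rw [← h4 c hc']
      exact h2 c hc hc'
  have h1 : IsTree S := by
    constructor
    · intro y b hb
      exact hT.1.1 y b ((hmem y b).1 hb).1
    · intro y b c hc hb
      obtain ⟨h2, h3⟩ := (hmem y b).1 hb
      exact (hmem y c).2 ⟨hT.1.2 y b c hc h2, fun d hd hd' => h3 d hd (hd'.trans_le hc)⟩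
  have h2 : Clo S := by
    intro y b h3 h4 h5
    refine (hmem y b).2 ⟨hT.2.2.1 y b h3 h4 fun c hc => ((hmem y c).1 (h5 c hc)).1, ?_⟩
    intro c hc hc'
    obtain ⟨d, h6, h7⟩ := h4 c hc'
    exact ((hmem y d).1 (h5 d h7)).2 c hc h6
  have h3 : IsStem S x0 a0 := by
    refine ⟨(hmem _ _).2 ⟨hs.1, fun c h h' => absurd h' (not_lt.2 h)⟩,
      fun y b hb => hs.2.1 y b ((hmem y b).1 hb).1, fun y b hb hy => ?_⟩
    obtain ⟨h4, h5⟩ := (hmem y b).1 hy
    have h6 : {c | app y b c ∈ S} = {c | app y b c ∈ T} ∩ Ioi (g b) := by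
      ext c
      simp only [mem_ofPred_eq, mem_inter_iff, mem_Ioi]
      unfold app
      rw [hmem]
      refine and_congr_right fun _ => ?_
      constructor
      · intro h
        have h7 := h b hb (Order.lt_succ b)
        rwa [Function.update_self] at h7
      · intro h d hd hd'
        rcases (Order.lt_succ_iff.1 hd').eq_or_lt with rfl | hdb
        · rwa [Function.update_self]
        · rw [Function.update_of_ne hdb.ne]
          exact h5 d hd hdb
    rw [h6]
    exact (hs.2.2 y b hb h4).inter hK (isClub_Ioi _)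
  refine ⟨S, h3.laver h1 h2, fun s hs => hs.1, ?_⟩
  rw [← subset_empty_iff]
  rintro y ⟨hy, j, hj⟩
  apply hj
  refine ⟨max a0 j, fun b hb => ?_⟩
  have h4 := ((hmem y (Order.succ b)).1 (hy _)).2 b ((le_max_left _ _).trans hb)
    (Order.lt_succ b)
  exact (hg b j ((le_max_right _ _).trans hb)).trans h4

end

end Pool.Agent.H635.LM
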