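import Pool.Agent.H635.LM.Ulam

/-!
# Measurability of `Δ¹₁` sets gives dominating functions
-/

set_option autoImplicit false
set_option linter.unusedSectionVars false

namespace Pool.Agent.H635.LM

open Set Cardinal
open ZFSet (pair)
open Pool.Agent.W868

theorem isZF_univ' : IsZF (Set.univ : Set ZFSet.{0}) := by
  refine ⟨fun _ _ _ _ => trivial, fun _ _ _ _ => trivial, fun _ _ => trivial, trivial,
    fun x _ => ⟨ZFSet.powerset x, trivial, fun z => by simp⟩, fun φ _ x _ => ?_,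
    fun φ _ x _ h => ?_⟩
  · exact ⟨ZFSet.sep (fun z => Sat Set.univ id φ ![z]) x, trivial, fun z => ZFSet.mem_sep⟩
  · choose! g hg hg' using h
    refine ⟨im g x, trivial, fun w => ?_⟩
    rw [mem_im]
    constructor
    · rintro ⟨z, hz, rfl⟩
      exact ⟨trivial, z, hz, (hg z hz).2⟩
    · rintro ⟨-, z, hz, h1⟩
      exact ⟨z, hz, hg' z hz w ⟨trivial, h1⟩⟩

section

variable {K : Type} [LinearOrder K] [WellFoundedLT K]

/-- The set `r` belongs to every inner model that contains `r`: the relative constructible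
universe `L[r]`. -/
def Lr (r : ZFSet.{0}) : Set ZFSet.{0} :=
  {y | ∀ M : Set ZFSet.{0}, IsZF M → (∀ α : ZFSet.{0}, α.IsOrdinal → α ∈ M) → r ∈ M → y ∈ M}

theorem isLA_gph (r : K → K) : IsLA (gph r) (LC Set.univ (gph r)) := by
  have hU : gph r ∈ (Set.univ : Set ZFSet.{0}) := Set.mem_univ _
  have hZ : IsZF (LC Set.univ (gph r)) := isZF_LC isZF_univ' hU
  have hO : ∀ y : ZFSet.{0}, y.IsOrdinal → y ∈ LC Set.univ (gph r) :=
    fun y hy => ord_LC isZF_univ' hU (Set.mem_univ _) hy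
  obtain ⟨δ, -, hδ, h1⟩ := exists_level isZF_univ' hU hU (Q := fun w z => w = z)
    (Dfn.eq (DfnF.proj 0) (DfnF.proj 1))
  refine isLA_LC isZF_univ' hU (Set.mem_univ δ) hδ fun z hz => ?_
  have h2 : z ∈ LC Set.univ (gph r) := by
    obtain ⟨a, rfl⟩ := mem_gph.1 hz
    have h3 := hZ.pairing _ (hO _ (oz_ord a)) _ (hO _ (oz_ord a))
    rw [ZFSet.pair_eq_singleton] at h3
    unfold ZFSet.pair
    exact hZ.pairing _ h3 _ (hZ.pairing _ (hO _ (oz_ord _)) _ (hO _ (oz_ord _)))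
  obtain ⟨w, hw, rfl⟩ := h1 z hz ⟨z, h2, rfl⟩
  exact hw

variable (hK : Good K) (r : K → K)

include hK

/-- The data exist and are small. -/
theorem exists_dat {x : K → K}
    (hx : ∃ y : K → K, gph y ∈ LC Set.univ (gph r) ∧ ¬ ∃ a, ∀ b, a ≤ b → y b < x b) :
    ∃ θ e ζ : ZFSet.{0}, θ.IsOrdinal ∧ ζ.IsOrdinal ∧ Sm K θ ∧ Sm K ζ ∧
      Bad (gph x) (kz K) (Lv (gph r) θ) ∧ (∀ η ∈ θ, ¬ Bad (gph x) (kz K) (Lv (gph r) η)) ∧
      e ∈ Lv (gph r) ζ ∧ IO e θ (kz K) ∧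
      ∀ e' ∈ Lv (gph r) ζ, IO e' θ (kz K) → ¬ pair e' e ∈ Wz (gph r) ζ := by
  have hL := isLA_gph r
  have hM := hL.zf
  have hO : ∀ y : ZFSet.{0}, y.IsOrdinal → y ∈ LC Set.univ (gph r) :=
    fun y hy => ord_LC isZF_univ' (Set.mem_univ _) (Set.mem_univ _) hy
  have hκ := hO _ (kz_ord (K := K))
  have hω := omega_kz hK
  have hP : ∀ y : K → K, gph y ⊆ PB (PB (kz K)) := by
    intro y z hz
    obtain ⟨a, rfl⟩ := mem_gph.1 hz
    exact pair_mem_PB (mem_kz.2 ⟨a, rfl⟩) (mem_kz.2 ⟨_, rfl⟩)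
  have hκi : Inj (LC Set.univ (gph r)) (kz K) (kz K) := Inj.of_subset hM hκ hκ fun _ h => h
  have hsm : ∀ ξ : ZFSet.{0}, Inj (LC Set.univ (gph r)) ξ (kz K) → Sm K ξ := by
    rintro ξ ⟨f, -, hf⟩
    refine Sm.of_card hK ?_
    rw [← card_kz (K := K)]
    exact card_le_of_isInj hf
  have hun : (kz K ∪ kz K : ZFSet.{0}) = kz K := by
    ext z
    simp
  -- the level of a bad function
  obtain ⟨y, hy, hyx⟩ := hx
  obtain ⟨ξ, hξ, hξi, hξy⟩ := small_level hL hκ kz_ord hω hκ kz_ord hκi (hP r) hy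
    (by rw [hun]; exact hP y)
  have hne : {θ : ZFSet.{0} | θ.IsOrdinal ∧ Bad (gph x) (kz K) (Lv (gph r) θ)}.Nonempty :=
    ⟨ξ, hξ, bad_iff.2 ⟨y, hξy, hyx⟩⟩
  obtain ⟨hθ, hθb⟩ := ZFSet.mem_wf.min_mem _ hne
  have hmin : ∀ η ∈ ZFSet.mem_wf.min _ hne, ¬ Bad (gph x) (kz K) (Lv (gph r) η) := by
    intro η hη hb
    exact ZFSet.mem_wf.not_lt_min {θ : ZFSet.{0} | θ.IsOrdinal ∧
      Bad (gph x) (kz K) (Lv (gph r) θ)} (x := η) ⟨hθ.mem hη, hb⟩ hη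
  set θ := ZFSet.mem_wf.min _ hne
  have hθξ : θ ⊆ ξ := by
    rcases hξ.mem_or_subset hθ with h | h
    · exact absurd (bad_iff.2 ⟨y, hξy, hyx⟩) (hmin ξ h)
    · exact h
  have hθi : Inj (LC Set.univ (gph r)) θ (kz K) :=
    inj_mono hM (hO _ hθ) (hO _ hξ) hκ hθξ hξi
  -- an injection
  obtain ⟨e0, he0, he0i⟩ := hθi
  have hIO : IO e0 θ (kz K) := by
    refine ⟨fun u hu => ?_, fun u _ i _ j _ h1 h2 => fun_unique he0i.1 h1 h2,
      fun u _ u' _ i _ h1 h2 => he0i.2 _ _ _ h1 h2⟩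
    obtain ⟨i, hi, h1⟩ := fun_exists he0i.1 hu
    exact ⟨i, hi, h1⟩
  obtain ⟨ζ, hζ, hζi, hζe⟩ := small_level hL hκ kz_ord hω (hO _ hθ) hθ ⟨e0, he0, he0i⟩ (hP r)
    he0 (by
      intro z hz
      obtain ⟨u, hu, i, hi, rfl⟩ := ZFSet.mem_prod.1 (he0i.1.1 hz)
      exact pair_mem_PB (ZFSet.mem_union.2 (Or.inl hu)) (ZFSet.mem_union.2 (Or.inr hi)))
  obtain ⟨e, he, h1, h2⟩ := (wOn_Wz (gph r) hζ).wf (fun e => IO e θ (kz K)) ⟨e0, hζe, hIO⟩
  exact ⟨θ, e, ζ, hθ, hζ, hsm _ ⟨e0, he0, he0i⟩, hsm _ hζi, hθb, hmin, he, h1, h2⟩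

variable [SuccOrder K] [NoMaxOrder K]

theorem main (hΔ : ∀ A : Set (K → K), IsDelta A → Meas A) :
    ∃ x : K → K, ∀ y : K → K, gph y ∈ Lr (gph r) → ∃ a, ∀ b, a ≤ b → y b < x b := by
  classical
  by_contra hcon
  push Not at hcon
  have hL := isLA_gph r
  have hO : ∀ y : ZFSet.{0}, y.IsOrdinal → y ∈ LC Set.univ (gph r) :=
    fun y hy => ord_LC isZF_univ' (Set.mem_univ _) (Set.mem_univ _) hy
  have hex : ∀ x : K → K, ∃ y : K → K, gph y ∈ LC Set.univ (gph r) ∧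
      ¬ ∃ a, ∀ b, a ≤ b → y b < x b := by
    intro x
    obtain ⟨y, hy, h1⟩ := hcon x
    refine ⟨y, hy _ hL.zf hO hL.mem, ?_⟩
    rintro ⟨a, ha⟩
    obtain ⟨b, hb, h2⟩ := h1 a
    exact absurd (ha b hb) (not_lt.2 h2)
  have hD := fun x => exists_dat hK r (hex x)
  -- the index set
  let U : Type := (Order.succ #K).ord.ToType
  let bz : U → ZFSet.{0} := fun u => (Ordinal.typein (α := U) (· < ·) u).toZFSet
  have hbz : Function.Injective bz := by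
    intro a b h
    exact Ordinal.typein_injective _ (Ordinal.toZFSet_injective h)
  have hbo : ∀ u, (bz u).IsOrdinal := fun u => ZFSet.isOrdinal_toZFSet _
  have hbs : ∀ u, Sm K (bz u) := by
    intro u
    refine Sm.of_card hK ?_
    rw [Ordinal.card_toZFSet, ← Order.lt_succ_iff, ← lt_ord]
    exact Ordinal.typein_lt_self u
  let B : U → K → Set (K → K) := fun u i =>
    {x | ∃ θ e, Dat (gph r) (kz K) (gph x) θ e ∧ (bz u ∈ θ ∧ pair (bz u) (oz i) ∈ e)}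
  have hδ : ∀ {θ ζ : ZFSet.{0}}, θ.IsOrdinal → ζ.IsOrdinal → Sm K θ → Sm K ζ →
      ∃ δ : ZFSet.{0}, δ.IsOrdinal ∧ Sm K δ ∧ θ ∈ δ ∧ ζ ∈ δ := by
    intro θ ζ hθ hζ hθs hζs
    rcases hθ.mem_or_subset hζ with h | h
    · exact ⟨sc ζ, isOrdinal_sc hζ, hζs.insert hK, ZFSet.mem_insert_of_mem _ h,
        ZFSet.mem_insert _ _⟩
    · refine ⟨sc θ, isOrdinal_sc hθ, hθs.insert hK, ZFSet.mem_insert _ _, ?_⟩
      rcases (ZFSet.IsOrdinal.subset_iff_eq_or_mem hζ hθ).1 h with rfl | h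
      · exact ZFSet.mem_insert _ _
      · exact ZFSet.mem_insert_of_mem _ h
  have hp : ∀ (u : U) (i : K) (j : Fin 4), HK K ((![gph r, kz K, bz u, oz i] :
      Fin 4 → ZFSet.{0}) j) := by
    intro u i j
    fin_cases j
    · exact hk_gph hK r
    · exact hk_ord hK kz_ord (Sm.of_card hK card_kz.le)
    · exact hk_ord hK (hbo u) (hbs u)
    · exact hk_oz i
  have hS : ∀ u i, S11 fun x : K → K => x ∈ B u i := by
    intro u i
    refine (s11_of_d0 hK (n := 4) d0_Fp ![gph r, kz K, bz u, oz i] (hp u i)).congr fun x => ?_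
    change (∃ f, HK K f ∧ Fp f (gph x) (gph r) (kz K) (bz u) (oz i)) ↔ _
    constructor
    · rintro ⟨f, -, hf⟩
      exact hf.dat
    · rintro ⟨θ', e', hd, h'⟩
      obtain ⟨θ, e, ζ, h1, h2, h3, h4, h5, h6, h7, h8, h9⟩ := hD x
      obtain ⟨rfl, rfl⟩ := hd.uniq ⟨h1, h5, h6, ζ, h2, h7, h8, h9⟩
      obtain ⟨δ, hδ1, hδ2, hδ3, hδ4⟩ := hδ h1 h2 h3 h4
      exact ⟨_, hk_lvs hK hδ1 hδ2,
        (core_lvs hδ1 hδ3 hδ4 h5 h6 h7 h8 h9).fp hδ3 hδ4 h7 h'⟩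
  have hS' : ∀ u i, S11 fun x : K → K => x ∈ (B u i)ᶜ := by
    intro u i
    refine (s11_of_d0 hK (n := 4) d0_Fm ![gph r, kz K, bz u, oz i] (hp u i)).congr fun x => ?_
    change (∃ f, HK K f ∧ Fm f (gph x) (gph r) (kz K) (bz u) (oz i)) ↔ _
    constructor
    · rintro ⟨f, -, hf⟩ ⟨θ', e', hd, h'⟩
      obtain ⟨θ, e, hd', h''⟩ := hf.dat
      obtain ⟨rfl, rfl⟩ := hd.uniq hd'
      exact h'' h'
    · intro hx
      obtain ⟨θ, e, ζ, h1, h2, h3, h4, h5, h6, h7, h8, h9⟩ := hD x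
      have h' : ¬ (bz u ∈ θ ∧ pair (bz u) (oz i) ∈ e) := fun h' =>
        hx ⟨θ, e, ⟨h1, h5, h6, ζ, h2, h7, h8, h9⟩, h'⟩
      obtain ⟨δ, hδ1, hδ2, hδ3, hδ4⟩ := hδ h1 h2 h3 h4
      exact ⟨_, hk_lvs hK hδ1 hδ2,
        (core_lvs hδ1 hδ3 hδ4 h5 h6 h7 h8 h9).fm hδ3 hδ4 h7 h'⟩
  have hm : ∀ u i, Meas (B u i) := fun u i => hΔ _ ⟨(hS u i).isSigma hK, (hS' u i).isSigma hK⟩
  refine ulam hK (Y := U) ?_ B hm ?_ ?_
  · simp only [U, mk_toType, card_ord]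
    exact Order.lt_succ _
  · intro u
    -- the functions in a small level
    obtain ⟨h, hh⟩ := sm_Lv hK (A := gph r) (hbo u) (hbs u)
    let F : K → K → K := fun k => if hk : ∃ y : K → K, h k = gph y then hk.choose else id
    refine (null_nondom hK F).mono ?_
    intro x hx
    obtain ⟨θ, e, ζ, h1, h2, h3, h4, h5, h6, h7, h8, h9⟩ := hD x
    have h10 : ¬ bz u ∈ θ := by
      intro h10
      obtain ⟨i, hi, h11⟩ := h8.1 _ h10
      obtain ⟨a, rfl⟩ := mem_kz.1 hi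
      exact hx (mem_iUnion.2 ⟨a, θ, e, ⟨h1, h5, h6, ζ, h2, h7, h8, h9⟩, h10, h11⟩)
    have h11 : θ ⊆ bz u := ((hbo u).mem_or_subset h1).resolve_left h10
    obtain ⟨y, hy, hyx⟩ := bad_iff.1 h5
    obtain ⟨k, hk⟩ := hh _ (Lv_mono h11 hy)
    have hk' : ∃ y : K → K, h k = gph y := ⟨y, hk⟩
    have h12 : F k = hk'.choose := dif_pos hk'
    have h13 : gph hk'.choose = gph y := hk'.choose_spec.symm.trans hk
    have h14 : hk'.choose = y := by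
      funext a
      have h15 : pair (oz a) (oz (y a)) ∈ gph hk'.choose := by
        rw [h13]
        exact pair_mem_gph.2 rfl
      exact pair_mem_gph.1 h15
    refine ⟨k, ?_⟩
    rw [h12, h14]
    exact hyx
  · intro u u' i huu
    rw [← subset_empty_iff]
    rintro x ⟨⟨θ, e, hd, h1, h2⟩, ⟨θ', e', hd', h1', h2'⟩⟩
    obtain ⟨rfl, rfl⟩ := hd.uniq hd'
    obtain ⟨-, -, -, ζ, -, -, h3, -⟩ := hd
    exact huu (hbz (h3.2.2 _ h1 _ h1' _ (mem_kz.2 ⟨i, rfl⟩) h2 h2'))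

end

end Pool.Agent.H635.LM
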