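import Pool.Agent.H635.LM.Lav

/-!
# Projections of closed sets of functions with values in `K`
-/

set_option autoImplicit false
set_option linter.unusedSectionVars false
set_option linter.deprecated false

namespace Pool.Agent.H635.LM

open Set Cardinal

section

variable {K : Type} [LinearOrder K] {J J₁ J₂ : Type}

/-- The value of `f` is decided by few coordinates. -/
def LocF {α : Type*} (f : (J → K) → α) : Prop :=
  ∀ w, ∃ s : Set J, #s < #K ∧ ∀ w', (∀ j ∈ s, w' j = w j) → f w' = f w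

/-- The negation of `P` is decided by few coordinates. -/
def Clp (P : (J → K) → Prop) : Prop :=
  ∀ w, ¬ P w → ∃ s : Set J, #s < #K ∧ ∀ w', (∀ j ∈ s, w' j = w j) → ¬ P w'

theorem Good.small_union (hK : Good K) {s t : Set J} (hs : #s < #K) (ht : #t < #K) :
    #(s ∪ t : Set J) < #K :=
  (mk_union_le s t).trans_lt (add_lt_of_lt hK.unc.le hs ht)

theorem Good.small_single (hK : Good K) (j : J) : #({j} : Set J) < #K := by
  rw [mk_singleton]
  exact one_lt_aleph0.trans hK.unc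

theorem Good.small_empty (hK : Good K) : #(∅ : Set J) < #K := by
  rw [mk_emptyCollection]
  exact aleph0_pos.trans hK.unc

theorem LocF.const (hK : Good K) {α : Type*} (c : α) : LocF fun _ : J → K => c :=
  fun _ => ⟨∅, hK.small_empty, fun _ _ => rfl⟩

theorem LocF.coord (hK : Good K) (j : J) : LocF fun w : J → K => w j :=
  fun _ => ⟨{j}, hK.small_single j, fun _ h => h j rfl⟩

theorem LocF.map2 (hK : Good K) {α β γ : Type*} (op : α → β → γ) {f : (J → K) → α}
    {g : (J → K) → β} (hf : LocF f) (hg : LocF g) : LocF fun w => op (f w) (g w) := by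
  intro w
  obtain ⟨s, hs, h1⟩ := hf w
  obtain ⟨t, ht, h2⟩ := hg w
  refine ⟨s ∪ t, hK.small_union hs ht, fun w' h => ?_⟩
  beta_reduce
  rw [h1 w' fun j hj => h j (Or.inl hj), h2 w' fun j hj => h j (Or.inr hj)]

theorem LocF.map1 {α β : Type*} (op : α → β) {f : (J → K) → α} (hf : LocF f) :
    LocF fun w => op (f w) := by
  intro w
  obtain ⟨s, hs, h1⟩ := hf w
  exact ⟨s, hs, fun w' h => congrArg op (h1 w' h)⟩

theorem LocF.look (hK : Good K) {f : (J → K) → J} (hf : LocF f) : LocF fun w => w (f w) := by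
  intro w
  obtain ⟨s, hs, h1⟩ := hf w
  refine ⟨s ∪ {f w}, hK.small_union hs (hK.small_single _), fun w' h => ?_⟩
  beta_reduce
  rw [h1 w' fun j hj => h j (Or.inl hj)]
  exact h _ (Or.inr rfl)

theorem LocF.clp {P : (J → K) → Prop} (h : LocF P) : Clp P := by
  intro w hw
  obtain ⟨s, hs, h1⟩ := h w
  refine ⟨s, hs, fun w' h2 h3 => hw ?_⟩
  rw [h1 w' h2] at h3
  exact h3

theorem Clp.all {ι : Type*} {P : ι → (J → K) → Prop} (h : ∀ i, Clp (P i)) :
    Clp fun w => ∀ i, P i w := by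
  intro w hw
  push Not at hw
  obtain ⟨i, hi⟩ := hw
  obtain ⟨s, hs, h1⟩ := h i w hi
  exact ⟨s, hs, fun w' h2 h3 => h1 w' h2 (h3 i)⟩

theorem Clp.and {P Q : (J → K) → Prop} (hP : Clp P) (hQ : Clp Q) : Clp fun w => P w ∧ Q w := by
  intro w hw
  by_cases h : P w
  · obtain ⟨s, hs, h1⟩ := hQ w fun h' => hw ⟨h, h'⟩
    exact ⟨s, hs, fun w' h2 h3 => h1 w' h2 h3.2⟩
  · obtain ⟨s, hs, h1⟩ := hP w h
    exact ⟨s, hs, fun w' h2 h3 => h1 w' h2 h3.1⟩

theorem Clp.bind (hK : Good K) {P : K → (J → K) → Prop} (h : ∀ k, Clp (P k)) (j : J) :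
    Clp fun w => P (w j) w := by
  intro w hw
  obtain ⟨s, hs, h1⟩ := h (w j) w hw
  refine ⟨s ∪ {j}, hK.small_union hs (hK.small_single _), fun w' h2 => ?_⟩
  beta_reduce
  rw [h2 j (Or.inr rfl)]
  exact h1 w' fun j hj => h2 j (Or.inl hj)

theorem Clp.congr {P Q : (J → K) → Prop} (hP : Clp P) (h : ∀ w, P w ↔ Q w) : Clp Q := by
  have : P = Q := funext fun w => propext (h w)
  exact this ▸ hP

theorem Clp.comp (hK : Good K) {P : (J₁ → K) → Prop} (hP : Clp P) {g : (J → K) → J₁ → K}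
    (hg : ∀ j, LocF fun w => g w j) : Clp fun w => P (g w) := by
  intro w hw
  obtain ⟨s, hs, h1⟩ := hP (g w) hw
  choose t ht h2 using fun j => hg j w
  refine ⟨⋃ j ∈ s, t j, ?_, fun w' h3 => h1 _ fun j hj => h2 j w' fun i hi => h3 i ?_⟩
  · rw [biUnion_eq_iUnion]
    refine (mk_iUnion_le_sum_mk).trans_lt ?_
    exact sum_lt_of_isRegular hK.reg hs fun i => ht _
  · exact mem_biUnion hj hi

/-- Projections of closed sets. -/
def S11 (P : (J → K) → Prop) : Prop :=
  ∃ (J' : Type) (C : (J ⊕ J' → K) → Prop), #J' ≤ #K ∧ Clp C ∧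
    ∀ w, P w ↔ ∃ w' : J' → K, C (Sum.elim w w')

theorem Clp.comp_idx (hK : Good K) {P : (J₁ → K) → Prop} (hP : Clp P) (ρ : J₁ → J) :
    Clp fun w : J → K => P fun j => w (ρ j) :=
  hP.comp hK (g := fun w j => w (ρ j)) fun j => LocF.coord hK (ρ j)

theorem Clp.s11 (hK : Good K) {P : (J → K) → Prop} (h : Clp P) : S11 P := by
  refine ⟨Empty, fun w => P fun j => w (Sum.inl j), ?_, h.comp_idx hK Sum.inl, fun w => ?_⟩
  · rw [mk_eq_zero]
    exact zero_le
  · exact ⟨fun h => ⟨Empty.elim, h⟩, fun ⟨_, h⟩ => h⟩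

theorem S11.congr {P Q : (J → K) → Prop} (hP : S11 P) (h : ∀ w, P w ↔ Q w) : S11 Q := by
  have : P = Q := funext fun w => propext (h w)
  exact this ▸ hP

theorem S11.and (hK : Good K) {P Q : (J → K) → Prop} (hP : S11 P) (hQ : S11 Q) :
    S11 fun w => P w ∧ Q w := by
  obtain ⟨I₁, C, h1, h2, h3⟩ := hP
  obtain ⟨I₂, D, h4, h5, h6⟩ := hQ
  refine ⟨I₁ ⊕ I₂, fun w => C (fun t => w (Sum.map id Sum.inl t)) ∧
    D (fun t => w (Sum.map id Sum.inr t)), ?_, (h2.comp_idx hK _).and (h5.comp_idx hK _),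
    fun w => ?_⟩
  · rw [mk_sum, lift_id, lift_id]
    exact add_le_of_le hK.unc.le h1 h4
  · beta_reduce
    rw [h3, h6]
    constructor
    · rintro ⟨⟨u, hu⟩, v, hv⟩
      refine ⟨Sum.elim u v, ?_, ?_⟩
      · convert hu using 1
        funext t
        rcases t with t | t <;> rfl
      · convert hv using 1
        funext t
        rcases t with t | t <;> rfl
    · rintro ⟨u, hu, hv⟩
      refine ⟨⟨fun t => u (Sum.inl t), ?_⟩, fun t => u (Sum.inr t), ?_⟩
      · convert hu using 1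
        funext t
        rcases t with t | t <;> rfl
      · convert hv using 1
        funext t
        rcases t with t | t <;> rfl

theorem Good.small_sigma (hK : Good K) {ι : Type} (hι : #ι ≤ #K) {I : ι → Type}
    (hI : ∀ i, #(I i) ≤ #K) : #(Σ i, I i) ≤ #K := by
  rw [mk_sigma]
  refine (sum_le_sum _ (fun _ => #K) hI).trans ?_
  rw [sum_const, lift_id, lift_id]
  exact (mul_le_mul_left hι _).trans (mul_eq_self hK.unc.le).le

theorem S11.all (hK : Good K) {ι : Type} (hι : #ι ≤ #K) {P : ι → (J → K) → Prop}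
    (h : ∀ i, S11 (P i)) : S11 fun w => ∀ i, P i w := by
  choose I C h1 h2 h3 using h
  refine ⟨Σ i, I i, fun w => ∀ i, C i (fun t => w (Sum.map id (Sigma.mk i) t)),
    hK.small_sigma hι h1, Clp.all fun i => (h2 i).comp_idx hK _, fun w => ?_⟩
  constructor
  · intro h
    choose u hu using fun i => (h3 i w).1 (h i)
    refine ⟨fun t => u t.1 t.2, fun i => ?_⟩
    convert hu i using 1
    funext t
    rcases t with t | t <;> rfl
  · rintro ⟨u, hu⟩ i
    rw [h3]
    refine ⟨fun t => u ⟨i, t⟩, ?_⟩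
    convert hu i using 1
    funext t
    rcases t with t | t <;> rfl

theorem S11.exI (hK : Good K) {ι : Type} (hι : #ι ≤ #K) {P : ι → (J → K) → Prop}
    (h : ∀ i, S11 (P i)) : S11 fun w => ∃ i, P i w := by
  classical
  choose I C h1 h2 h3 using h
  obtain ⟨e⟩ := Cardinal.le_def _ _ |>.1 hι
  refine ⟨Unit ⊕ Σ i, I i, fun w => ∃ i, e i = w (Sum.inr (Sum.inl ())) ∧
    C i (fun t => w (Sum.map id (fun u => Sum.inr ⟨i, u⟩) t)), ?_, ?_, fun w => ?_⟩
  · rw [mk_sum, lift_id, lift_id]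
    refine add_le_of_le hK.unc.le ?_ (hK.small_sigma hι h1)
    simpa using (one_lt_aleph0.trans hK.unc).le
  · refine Clp.bind hK (P := fun k (w : J ⊕ (Unit ⊕ Σ i, I i) → K) => ∃ i, e i = k ∧
      C i (fun t => w (Sum.map id (fun u => Sum.inr ⟨i, u⟩) t))) (fun k => ?_)
      (Sum.inr (Sum.inl ()))
    by_cases hk : ∃ i, e i = k
    · obtain ⟨i, rfl⟩ := hk
      refine ((h2 i).comp_idx hK (Sum.map id fun u => Sum.inr ⟨i, u⟩)).congr fun w => ?_
      constructor
      · exact fun h => ⟨i, rfl, h⟩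
      · rintro ⟨i', h4, h5⟩
        obtain rfl := e.injective h4
        exact h5
    · refine (LocF.const hK False).clp.congr fun w => ?_
      exact iff_of_false id fun ⟨i, h, _⟩ => hk ⟨i, h⟩
  · constructor
    · rintro ⟨i, hi⟩
      obtain ⟨u, hu⟩ := (h3 i w).1 hi
      refine ⟨Sum.elim (fun _ => e i) fun t => if h : t.1 = i then u (h ▸ t.2) else e i, i, rfl, ?_⟩
      convert hu using 1
      funext t
      rcases t with t | t
      · rfl
      · simp
    · rintro ⟨u, i, -, hu⟩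
      refine ⟨i, (h3 i w).2 ⟨fun t => u (Sum.inr ⟨i, t⟩), ?_⟩⟩
      convert hu using 1
      funext t
      rcases t with t | t <;> rfl

theorem S11.or (hK : Good K) {P Q : (J → K) → Prop} (hP : S11 P) (hQ : S11 Q) :
    S11 fun w => P w ∨ Q w := by
  have h : S11 fun w => ∃ b : Bool, cond b (P w) (Q w) := by
    refine S11.exI hK ?_ ?_
    · have : #Bool < ℵ₀ := lt_aleph0_of_finite _
      exact (this.trans hK.unc).le
    · rintro (_ | _) <;> assumption
  refine h.congr fun w => ?_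
  constructor
  · rintro ⟨_ | _, h⟩
    · exact Or.inr h
    · exact Or.inl h
  · rintro (h | h)
    · exact ⟨true, h⟩
    · exact ⟨false, h⟩

theorem S11.comp (hK : Good K) {P : (J₁ → K) → Prop} (hP : S11 P) {g : (J → K) → J₁ → K}
    (hg : ∀ j, LocF fun w => g w j) : S11 fun w => P (g w) := by
  obtain ⟨I, C, h1, h2, h3⟩ := hP
  refine ⟨I, fun w => C (Sum.elim (g fun j => w (Sum.inl j)) fun t => w (Sum.inr t)), h1,
    h2.comp hK (g := fun w => Sum.elim (g fun j => w (Sum.inl j)) fun t => w (Sum.inr t)) ?_,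
    fun w => ?_⟩
  · rintro (j | j)
    · intro w
      obtain ⟨s, hs, h4⟩ := hg j fun j => w (Sum.inl j)
      refine ⟨Sum.inl '' s, mk_image_le.trans_lt hs, fun w' h5 => ?_⟩
      exact h4 _ fun i hi => h5 _ ⟨i, hi, rfl⟩
    · exact LocF.coord hK _
  · beta_reduce
    rw [h3]
    rfl

theorem S11.exF (hK : Good K) (hJ : #J₁ ≤ #K) {P : (J ⊕ J₁ → K) → Prop} (hP : S11 P) :
    S11 fun w : J → K => ∃ u : J₁ → K, P (Sum.elim w u) := by
  obtain ⟨I, C, h1, h2, h3⟩ := hP
  let ρ : (J ⊕ J₁) ⊕ I → J ⊕ (J₁ ⊕ I) := Equiv.sumAssoc J J₁ I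
  refine ⟨J₁ ⊕ I, fun w => C fun t => w (ρ t), ?_, h2.comp_idx hK ρ, fun w => ?_⟩
  · rw [mk_sum, lift_id, lift_id]
    exact add_le_of_le hK.unc.le hJ h1
  · constructor
    · rintro ⟨u, hu⟩
      obtain ⟨v, hv⟩ := (h3 _).1 hu
      refine ⟨Sum.elim u v, ?_⟩
      convert hv using 1
      funext t
      rcases t with (t | t) | t <;> rfl
    · rintro ⟨u, hu⟩
      refine ⟨fun t => u (Sum.inl t), (h3 _).2 ⟨fun t => u (Sum.inr t), ?_⟩⟩
      convert hu using 1
      funext t
      rcases t with (t | t) | t <;> rfl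

theorem S11.isSigma [NoMaxOrder K] (hK : Good K) {P : (K → K) → Prop} (hP : S11 P) :
    IsSigma {x | P x} := by
  classical
  have hne : Nonempty K := by
    rw [← mk_ne_zero_iff]
    exact (aleph0_pos.trans hK.unc).ne'
  obtain ⟨I, C, h1, h2, h3⟩ := hP
  obtain ⟨e⟩ := Cardinal.le_def _ _ |>.1 h1
  refine ⟨{p | C (Sum.elim p.1 fun t => p.2 (e t))}, ?_, ?_⟩
  · letI := bdTop K
    rw [← isOpen_compl_iff, isOpen_iff_mem_nhds]
    rintro ⟨x, y⟩ hxy
    obtain ⟨s, hs, h4⟩ := h2 _ hxy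
    let f : s → K := fun t => Sum.elim id (fun t => e t) t.1
    obtain ⟨a, ha⟩ := hK.bdd hs f
    have h5 : ∀ z : K → K, {z' : K → K | ∀ b < a, z' b = z b} ∈ nhds z := by
      intro z
      apply IsOpen.mem_nhds
      · exact TopologicalSpace.isOpen_generateFrom_of_mem ⟨z, a, rfl⟩
      · exact fun _ _ => rfl
    rw [nhds_prod_eq]
    refine Filter.mem_of_superset (Filter.prod_mem_prod (h5 x) (h5 y)) ?_
    rintro ⟨x', y'⟩ ⟨hx, hy⟩
    apply h4
    rintro (j | j) hj
    · exact hx _ (ha ⟨_, hj⟩)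
    · exact hy _ (ha ⟨_, hj⟩)
  · ext x
    simp only [mem_ofPred_eq]
    rw [h3]
    constructor
    · rintro ⟨u, hu⟩
      refine ⟨fun k => if h : ∃ t, e t = k then u h.choose else k, ?_⟩
      convert hu using 1
      funext t
      rcases t with t | t
      · rfl
      · have h : ∃ t', e t' = e t := ⟨t, rfl⟩
        have h4 : h.choose = t := e.injective h.choose_spec
        simp only [Sum.elim_inr]
        rw [dif_pos h, h4]
    · rintro ⟨y, hy⟩
      exact ⟨fun t => y (e t), hy⟩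

end

end Pool.Agent.H635.LM
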