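import Pool.Agent.H635.LM.LW
import Pool.Agent.H635.LM.Code

/-!
# An Ulam matrix of sets that are defined from a relative constructible universe
-/

set_option autoImplicit false
set_option linter.unusedSectionVars false

namespace Pool.Agent.H635.LM

open Set Cardinal
open ZFSet (pair)
open Pool.Agent.W868

section small

variable {K : Type} [LinearOrder K] [WellFoundedLT K]

variable (K) in
/-- The ordinal `κ`. -/
noncomputable def kz : ZFSet.{0} := (Ordinal.type (α := K) (· < ·)).toZFSet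

theorem mem_kz {z : ZFSet.{0}} : z ∈ kz K ↔ ∃ a : K, oz a = z := by
  unfold kz
  rw [Ordinal.mem_toZFSet_iff]
  constructor
  · rintro ⟨o, ho, rfl⟩
    obtain ⟨b, rfl⟩ := Ordinal.mem_range_typein_iff (· < ·) |>.2 ho
    exact ⟨b, rfl⟩
  · rintro ⟨b, rfl⟩
    exact ⟨_, Ordinal.typein_lt_type _ b, rfl⟩

theorem kz_ord : (kz K).IsOrdinal := ZFSet.isOrdinal_toZFSet _

theorem oz_ord (a : K) : (oz a).IsOrdinal := ZFSet.isOrdinal_toZFSet _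

theorem card_kz : (kz K).card = #K := by
  unfold kz
  rw [Ordinal.card_toZFSet]
  exact Ordinal.card_type _

theorem omega_kz (hK : Good K) : ZFSet.omega ⊆ kz K := by
  rcases isOrdinal_omega.mem_or_subset (kz_ord (K := K)) with h | h
  · exact kz_ord.subset_of_mem h
  · have h1 := ZFSet.card_mono h
    rw [card_kz, omega_eq, Ordinal.card_toZFSet] at h1
    simp only [Ordinal.card_omega0] at h1
    exact absurd h1 (not_le.2 hK.unc)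

theorem pair_mem_gph {x : K → K} {a b : K} : pair (oz a) (oz b) ∈ gph x ↔ x a = b := by
  rw [mem_gph]
  constructor
  · rintro ⟨c, hc⟩
    obtain ⟨h1, h2⟩ := ZFSet.pair_inj.1 hc
    obtain rfl := oz_inj h1
    exact oz_inj h2
  · rintro rfl
    exact ⟨a, rfl⟩

theorem fn_gph (y : K → K) : Fn (gph y) (kz K) := by
  constructor
  · intro p hp
    obtain ⟨a, rfl⟩ := mem_gph.1 hp
    exact ⟨_, _, rfl, mem_kz.2 ⟨_, rfl⟩, mem_kz.2 ⟨_, rfl⟩⟩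
  · intro a ha
    obtain ⟨a, rfl⟩ := mem_kz.1 ha
    refine ⟨_, mem_kz.2 ⟨y a, rfl⟩, pair_mem_gph.2 rfl, fun c hc h => ?_⟩
    obtain ⟨c, rfl⟩ := mem_kz.1 hc
    rw [pair_mem_gph.1 h]

theorem Fn.exists_gph {y : ZFSet.{0}} (h : Fn y (kz K)) : ∃ y' : K → K, y = gph y' := by
  have h1 : ∀ a : K, ∃ b : K, pair (oz a) (oz b) ∈ y ∧ ∀ c : K, pair (oz a) (oz c) ∈ y → c = b := by
    intro a
    obtain ⟨b, hb, h2, h3⟩ := h.2 _ (mem_kz.2 ⟨a, rfl⟩)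
    obtain ⟨b, rfl⟩ := mem_kz.1 hb
    exact ⟨b, h2, fun c hc => oz_inj (h3 _ (mem_kz.2 ⟨c, rfl⟩) hc)⟩
  choose y' hy1 hy2 using h1
  refine ⟨y', ?_⟩
  ext p
  constructor
  · intro hp
    obtain ⟨a, b, rfl, ha, hb⟩ := h.1 p hp
    obtain ⟨a, rfl⟩ := mem_kz.1 ha
    obtain ⟨b, rfl⟩ := mem_kz.1 hb
    exact pair_mem_gph.2 (hy2 a b hp).symm
  · intro hp
    obtain ⟨a, rfl⟩ := mem_gph.1 hp
    exact hy1 a

theorem nd_iff (x y : K → K) :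
    ND (gph x) (gph y) (kz K) ↔ ¬ ∃ a, ∀ b, a ≤ b → y b < x b := by
  constructor
  · rintro h ⟨a, ha⟩
    obtain ⟨b, hb, h1, c, hc, d, hd, h2, h3, h4⟩ := h _ (mem_kz.2 ⟨a, rfl⟩)
    obtain ⟨b, rfl⟩ := mem_kz.1 hb
    obtain ⟨c, rfl⟩ := mem_kz.1 hc
    obtain ⟨d, rfl⟩ := mem_kz.1 hd
    rw [pair_mem_gph] at h2 h3
    subst h2 h3
    apply h4
    rw [oz_mem]
    apply ha
    rcases h1 with h1 | h1
    · exact (oz_mem.1 h1).le
    · exact (oz_inj h1).le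
  · intro h a ha
    obtain ⟨a, rfl⟩ := mem_kz.1 ha
    push Not at h
    obtain ⟨b, hb, h1⟩ := h a
    refine ⟨_, mem_kz.2 ⟨b, rfl⟩, ?_, _, mem_kz.2 ⟨x b, rfl⟩, _, mem_kz.2 ⟨y b, rfl⟩,
      pair_mem_gph.2 rfl, pair_mem_gph.2 rfl, ?_⟩
    · rcases hb.eq_or_lt with rfl | hb
      · exact Or.inr rfl
      · exact Or.inl (oz_mem.2 hb)
    · rw [oz_mem]
      exact not_lt.2 h1

theorem bad_iff {x : K → K} {X : ZFSet.{0}} :
    Bad (gph x) (kz K) X ↔ ∃ y : K → K, gph y ∈ X ∧ ¬ ∃ a, ∀ b, a ≤ b → y b < x b := by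
  constructor
  · rintro ⟨y, hy, h1, h2⟩
    obtain ⟨y, rfl⟩ := h1.exists_gph
    exact ⟨y, hy, (nd_iff x y).1 h2⟩
  · rintro ⟨y, hy, h⟩
    exact ⟨_, hy, fn_gph y, (nd_iff x y).2 h⟩

/-! ### Sizes -/

theorem Good.mul (hK : Good K) : #K * #K = #K := mul_eq_self hK.unc.le

theorem Sm.iUnion (hK : Good K) {ι : Type} (hι : #ι ≤ #K) (F : ι → ZFSet.{0})
    (hF : ∀ i, Sm K (F i)) {u : ZFSet.{0}} (hu : ∀ v ∈ u, ∃ i, v ∈ F i) : Sm K u := by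
  choose h hh using hF
  obtain ⟨g, hg⟩ := exists_cover hK (ι := ι × K) (by
    rw [mk_prod, lift_id, lift_id]
    exact (mul_le_mul_left hι _).trans hK.mul.le) fun t => h t.1 t.2
  refine ⟨g, fun v hv => ?_⟩
  obtain ⟨i, hi⟩ := hu v hv
  obtain ⟨k, rfl⟩ := hh i v hi
  exact hg (i, k)

theorem Sm.insert (hK : Good K) {u a : ZFSet.{0}} (hu : Sm K u) : Sm K (insert a u) := by
  refine Sm.iUnion hK (ι := Bool) ?_ (fun b => cond b u {a, a}) ?_ ?_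
  · have : #Bool < ℵ₀ := lt_aleph0_of_finite _
    exact (this.trans hK.unc).le
  · rintro (_ | _)
    · exact Sm.upair hK a a
    · exact hu
  · intro v hv
    rcases ZFSet.mem_insert_iff.1 hv with rfl | hv
    · exact ⟨false, ZFSet.mem_pair.2 (Or.inl rfl)⟩
    · exact ⟨true, hv⟩

theorem Sm.prod (hK : Good K) {u v : ZFSet.{0}} (hu : Sm K u) (hv : Sm K v) :
    Sm K (ZFSet.prod u v) := by
  obtain ⟨g, hg⟩ := hu
  obtain ⟨h, hh⟩ := hv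
  obtain ⟨f, hf⟩ := exists_cover hK (ι := K × K) (by
    rw [mk_prod, lift_id]
    exact hK.mul.le) fun t => pair (g t.1) (h t.2)
  refine ⟨f, fun p hp => ?_⟩
  obtain ⟨a, ha, b, hb, rfl⟩ := ZFSet.mem_prod.1 hp
  obtain ⟨k, rfl⟩ := hg a ha
  obtain ⟨l, rfl⟩ := hh b hb
  exact hf (k, l)

theorem sm_step (hK : Good K) {A X : ZFSet.{0}} (hX : Sm K X) : Sm K (step A X) := by
  have h1 := hX.insert hK (a := X)
  obtain ⟨h, hh⟩ := h1
  obtain ⟨f, hf⟩ := exists_cover hK (ι := Option (Fin 11 × (K × K))) (by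
    have h3 : #(Option (Fin 11 × (K × K))) = #(Fin 11) * (#K * #K) + 1 := by simp
    rw [h3, hK.mul]
    refine add_le_of_le hK.unc.le ?_ (one_lt_aleph0.trans hK.unc).le
    exact (mul_le_mul_left ((lt_aleph0_of_finite _).le.trans hK.unc.le) _).trans hK.mul.le)
    fun t => t.elim ∅ fun t => ZFSet.sep (fun u => GR A t.1 u (h t.2.1) (h t.2.2)) X
  refine Sm.iUnion hK (ι := Bool) ?_ (fun b => cond b X
    (ZFSet.range f)) ?_ ?_
  · have : #Bool < ℵ₀ := lt_aleph0_of_finite _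
    exact (this.trans hK.unc).le
  · rintro (_ | _)
    · exact Sm.range f
    · exact hX
  · intro y hy
    rcases mem_step.1 hy with hy | ⟨i, hi, a, ha, b, hb, h2⟩
    · exact ⟨true, hy⟩
    · refine ⟨false, ?_⟩
      obtain ⟨k, rfl⟩ := hh a ha
      obtain ⟨l, rfl⟩ := hh b hb
      obtain ⟨m, hm⟩ := hf (some (⟨i, hi⟩, k, l))
      refine ZFSet.mem_range.2 ⟨m, ?_⟩
      rw [hm]
      ext u
      rw [h2]
      change u ∈ ZFSet.sep (fun u => GR A i u (h k) (h l)) X ↔ _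
      rw [ZFSet.mem_sep]

theorem sm_Lv (hK : Good K) {A ξ : ZFSet.{0}} (hξo : ξ.IsOrdinal) (hξ : Sm K ξ) :
    Sm K (Lv A ξ) := by
  induction ξ using ZFSet.inductionOn with
  | _ ξ ih =>
  obtain ⟨h, hh⟩ := hξ
  classical
  refine Sm.iUnion hK (ι := K) le_rfl (fun k => if h k ∈ ξ then step A (Lv A (h k)) else ∅)
    (fun k => ?_) fun v hv => ?_
  · split_ifs with hk
    · refine sm_step hK (ih _ hk (hξo.mem hk) ?_)
      exact Sm.mono ⟨h, hh⟩ (hξo.subset_of_mem hk)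
    · exact ⟨fun _ => ∅, fun v hv => absurd hv (ZFSet.notMem_empty _)⟩
  · obtain ⟨u, hu, h1⟩ := mem_Lv.1 hv
    obtain ⟨k, rfl⟩ := hh u hu
    refine ⟨k, ?_⟩
    rw [if_pos hu]
    exact h1

theorem hk_trans (hK : Good K) {u : ZFSet.{0}} (ht : ∀ v ∈ u, ∀ w ∈ v, w ∈ u) (hu : Sm K u) :
    HK K u := by
  classical
  obtain ⟨h, hh⟩ := hu
  have h1 : ∀ v ∈ u, HK K v := by
    intro v hv
    obtain ⟨k0, hk0⟩ := hh v hv
    refine ⟨fun k => if h k ∈ u then h k else v, fun k w hw => ?_, k0, ?_⟩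
    · have h2 : w ∈ u := by
        beta_reduce at hw
        split_ifs at hw with hk
        · exact ht _ hk w hw
        · exact ht _ hv w hw
      obtain ⟨l, rfl⟩ := hh w h2
      refine ⟨l, ?_⟩
      beta_reduce
      rw [if_pos h2]
    · beta_reduce
      rw [hk0, if_pos hv]
  exact HK.of hK ⟨h, hh⟩ h1

theorem hk_ord (hK : Good K) {ξ : ZFSet.{0}} (hξo : ξ.IsOrdinal) (hξ : Sm K ξ) : HK K ξ :=
  hk_trans hK (fun v hv w hw => hξo.subset_of_mem hv hw) hξ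

theorem hk_Lv (hK : Good K) {A ξ : ZFSet.{0}} (hξo : ξ.IsOrdinal) (hξ : Sm K ξ) :
    HK K (Lv A ξ) := hk_trans hK (Lv_trans ξ) (sm_Lv hK hξo hξ)

theorem hk_Wz (hK : Good K) {A ξ : ZFSet.{0}} (hξo : ξ.IsOrdinal) (hξ : Sm K ξ) :
    HK K (Wz A ξ) := by
  have h1 := hk_Lv hK (A := A) hξo hξ
  refine HK.of hK ?_ fun t ht => ?_
  · refine (Sm.prod hK h1.sm h1.sm).mono fun t ht => ?_
    obtain ⟨y, hy, y', hy', rfl⟩ := Wz_form ht
    exact ZFSet.pair_mem_prod.2 ⟨hy, hy'⟩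
  · obtain ⟨y, hy, y', hy', rfl⟩ := Wz_form ht
    exact (h1.mem hy).pair hK (h1.mem hy')

theorem hk_lvs (hK : Good K) {A δ : ZFSet.{0}} (hδo : δ.IsOrdinal) (hδ : Sm K δ) :
    HK K (lvs A δ) := by
  refine HK.of hK ?_ fun t ht => ?_
  · obtain ⟨h, hh⟩ := hδ
    refine ⟨fun k => pair (h k) (pair (Lv A (h k)) (Wz A (h k))), fun t ht => ?_⟩
    obtain ⟨ξ, hξ, rfl⟩ := mem_lvs.1 ht
    obtain ⟨k, rfl⟩ := hh ξ hξ
    exact ⟨k, rfl⟩
  · obtain ⟨ξ, hξ, rfl⟩ := mem_lvs.1 ht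
    have h1 : Sm K ξ := hδ.mono (hδo.subset_of_mem hξ)
    have h2 := hδo.mem hξ
    exact (hk_ord hK h2 h1).pair hK ((hk_Lv hK h2 h1).pair hK (hk_Wz hK h2 h1))

end small

/-! ### Bounds for the levels -/

/-- `B` and the unordered pairs of its elements. -/
noncomputable def PB (B : ZFSet.{0}) : ZFSet.{0} :=
  B ∪ im (fun p => {fs p, sn p}) (ZFSet.prod B B)

theorem mem_PB {B z : ZFSet.{0}} : z ∈ PB B ↔ z ∈ B ∨ ∃ a ∈ B, ∃ b ∈ B, z = {a, b} := by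
  unfold PB
  rw [ZFSet.mem_union, mem_im]
  apply or_congr Iff.rfl
  constructor
  · rintro ⟨p, hp, rfl⟩
    obtain ⟨a, ha, b, hb, rfl⟩ := ZFSet.mem_prod.1 hp
    exact ⟨a, ha, b, hb, by rw [fs_pair, sn_pair]⟩
  · rintro ⟨a, ha, b, hb, rfl⟩
    exact ⟨pair a b, ZFSet.pair_mem_prod.2 ⟨ha, hb⟩, by rw [fs_pair, sn_pair]⟩

theorem pair_mem_PB {B a b : ZFSet.{0}} (ha : a ∈ B) (hb : b ∈ B) : pair a b ∈ PB (PB B) := by
  refine mem_PB.2 (Or.inr ⟨{a}, mem_PB.2 (Or.inr ⟨a, ha, a, ha, ?_⟩), {a, b},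
    mem_PB.2 (Or.inr ⟨a, ha, b, hb, rfl⟩), rfl⟩)
  ext z
  simp

theorem PB_trans {B : ZFSet.{0}} (h : ∀ v ∈ B, ∀ w ∈ v, w ∈ B) : ∀ v ∈ PB B, ∀ w ∈ v, w ∈ PB B := by
  intro v hv w hw
  rcases mem_PB.1 hv with hv | ⟨a, ha, b, hb, rfl⟩
  · exact mem_PB.2 (Or.inl (h v hv w hw))
  · rcases ZFSet.mem_pair.1 hw with rfl | rfl
    · exact mem_PB.2 (Or.inl ha)
    · exact mem_PB.2 (Or.inl hb)

section bound

variable {A : ZFSet.{0}} {C : Set ZFSet.{0}} (hL : IsLA A C) {μ : ZFSet.{0}} (hμ : μ ∈ C)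
  (hμo : μ.IsOrdinal) (hω : ZFSet.omega ⊆ μ)

include hL hμ hμo hω

theorem PB_mem {B : ZFSet.{0}} (hB : B ∈ C) (h : Inj C B μ) : PB B ∈ C ∧ Inj C (PB B) μ := by
  have hM := hL.zf
  have h1 : ZFSet.prod B B ∈ C := hM.prod_mem hB hB
  have h2 : DfnF C C fun w : Fin 1 → ZFSet.{0} => ({fs (w 0), sn (w 0)} : ZFSet.{0}) :=
    hM.base.upair' (hM.fs' (DfnF.proj 0)) (hM.sn' (DfnF.proj 0))
  have h3 := hM.im_mem (h := fun p => {fs p, sn p}) h1 h2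
  exact ⟨hM.union_mem hB h3, Inj.union hM hL.gc hμ hμo hω hB h3 h
    (Inj.image hM h1 hμ hμo (Inj.pair_into hM hμ hμo hω hB h) (h := fun p => {fs p, sn p}) h2)⟩

/-- A set of pairs of small ordinals is in a small level. -/
theorem small_level {θ u : ZFSet.{0}} (hθ : θ ∈ C) (hθo : θ.IsOrdinal) (hθi : Inj C θ μ)
    (hA : A ⊆ PB (PB μ)) (hu : u ∈ C) (huθ : u ⊆ PB (PB (θ ∪ μ))) :
    ∃ ξ : ZFSet.{0}, ξ.IsOrdinal ∧ Inj C ξ μ ∧ u ∈ Lv A ξ := by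
  have hM := hL.zf
  have hg := hL.gc
  have hB : θ ∪ μ ∈ C := hM.union_mem hθ hμ
  have hBi : Inj C (θ ∪ μ) μ :=
    Inj.union hM hg hμ hμo hω hθ hμ hθi (Inj.of_subset hM hμ hμ fun _ h => h)
  obtain ⟨h1, h2⟩ := PB_mem hL hμ hμo hω hB hBi
  obtain ⟨h3, h4⟩ := PB_mem hL hμ hμo hω h1 h2
  have hmono : ∀ {B B' : ZFSet.{0}}, B ⊆ B' → PB B ⊆ PB B' := by
    intro B B' h z hz
    rcases mem_PB.1 hz with hz | ⟨a, ha, b, hb, rfl⟩
    · exact mem_PB.2 (Or.inl (h hz))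
    · exact mem_PB.2 (Or.inr ⟨a, h ha, b, h hb, rfl⟩)
  have hA' : A ⊆ PB (PB (θ ∪ μ)) := fun z hz =>
    hmono (hmono fun w hw => ZFSet.mem_union.2 (Or.inr hw)) (hA hz)
  have htr : ∀ x ∈ PB (PB (θ ∪ μ)), ∀ y ∈ x, y ∈ PB (PB (θ ∪ μ)) := by
    apply PB_trans
    apply PB_trans
    intro v hv w hw
    rcases ZFSet.mem_union.1 hv with hv | hv
    · exact ZFSet.mem_union.2 (Or.inl (hθo.subset_of_mem hv hw))
    · exact ZFSet.mem_union.2 (Or.inr (hμo.subset_of_mem hv hw))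
  have h5 : (insert A (PB (PB (θ ∪ μ))) : ZFSet.{0}) ∈ C := hM.insert_mem hL.mem h3
  have h6 : Inj C (insert A (PB (PB (θ ∪ μ))) : ZFSet.{0}) μ :=
    Inj.insert hM hg hμ hμo hω hL.mem h3 h4
  have h7 : (insert u (insert A (PB (PB (θ ∪ μ)))) : ZFSet.{0}) ∈ C := hM.insert_mem hu h5
  have h8 : Inj C (insert u (insert A (PB (PB (θ ∪ μ)))) : ZFSet.{0}) μ :=
    Inj.insert hM hg hμ hμo hω hu h5 h6
  obtain ⟨N, hN, hNt, haN, hNμ, hΨ⟩ := condensation hL hμ hμo hω h7 (by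
    intro x hx z hz
    apply ZFSet.mem_insert_of_mem
    apply ZFSet.mem_insert_of_mem
    rcases ZFSet.mem_insert_iff.1 hx with rfl | hx
    · exact huθ hz
    rcases ZFSet.mem_insert_iff.1 hx with rfl | hx
    · exact hA' hz
    · exact htr x hx z hz) (ZFSet.mem_insert_of_mem _ (ZFSet.mem_insert _ _)) h8
  obtain ⟨f, hf, h9⟩ := hΨ u (haN (ZFSet.mem_insert _ _))
  obtain ⟨ξ, X, h10, h11, h12⟩ := h9.spec
  have h13 : ξ ∈ N := by
    have h14 : pair ξ X ∈ N := hNt _ hf _ h10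
    have h15 : ({ξ} : ZFSet.{0}) ∈ N := hNt _ h14 _ (by simp [pair])
    exact hNt _ h15 _ (ZFSet.mem_singleton.2 rfl)
  exact ⟨ξ, h11, inj_mono hM (hM.trans _ hN _ h13) hN hμ (fun z hz => hNt _ h13 _ hz) hNμ, h12⟩

end bound

end Pool.Agent.H635.LM
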